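import Mathlib

set_option autoImplicit false

universe u

namespace Pool.Agent.H69R3

/-- `C_p(X)`: the continuous real functions on `X` with the topology of pointwise convergence
(the subspace topology inherited from the product `X → ℝ`). -/
abbrev Cp (X : Type*) [TopologicalSpace X] := {f : X → ℝ // Continuous f}

/-- The subspace `A` is t-embedded in `X`: there is a continuous (not necessarily linear) extender
`φ : C_p(A) → C_p(X)`, that is, a continuous map with `φ(f)|_A = f` for all `f ∈ C_p(A)`. -/
def TEmbedded {X : Type*} [TopologicalSpace X] (A : Set X) : Prop :=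
  ∃ φ : Cp A → Cp X, Continuous φ ∧ ∀ (f : Cp A) (a : A), (φ f).1 a = f.1 a

/-- `X` is t-extral: whenever `X` is (homeomorphic to) a closed subspace `A` of a Tychonoff space
`Y`, then this subspace is t-embedded in `Y`. -/
def TExtral (X : Type u) [TopologicalSpace X] : Prop :=
  ∀ (Y : Type u) [TopologicalSpace Y] [T35Space Y] (A : Set Y), IsClosed A →
    Nonempty (X ≃ₜ A) → TEmbedded A

/-- `X` is t-extendial: each closed subspace of `X` is t-embedded in `X`. -/
def TExtendial (X : Type*) [TopologicalSpace X] : Prop :=
  ∀ A : Set X, IsClosed A → TEmbedded A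

/-- Countable tightness: each point of the closure of a set `A` is in the closure of a countable
subset of `A`. -/
def CountablyTight (X : Type*) [TopologicalSpace X] : Prop :=
  ∀ (A : Set X) (x : X), x ∈ closure A → ∃ B ⊆ A, B.Countable ∧ x ∈ closure B

end Pool.Agent.H69R3
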