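import Mathlib
import Pool.Agent.Helper126.Fact

set_option autoImplicit false

open Set Topology Filter

namespace Pool.Agent.H69R3

open Pool.Agent.Helper126 (delta_system uncountable_fiber)

/-- `A` contains the closures of its countable subsets -/
def OC {X : Type*} [TopologicalSpace X] (A : Set X) : Prop :=
  ∀ B ⊆ A, B.Countable → closure B ⊆ A

/-- every set which contains the closures of its countable subsets is closed -/
def OT (X : Type*) [TopologicalSpace X] : Prop := ∀ A : Set X, OC A → IsClosed A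

theorem OT_of_tight {X : Type*} [TopologicalSpace X]
    (h : ∀ (A : Set X) (x : X), x ∈ closure A → ∃ B ⊆ A, B.Countable ∧ x ∈ closure B) : OT X := by
  intro A hA
  rw [← closure_subset_iff_isClosed]
  intro x hx
  obtain ⟨B, hB, hc, hxB⟩ := h A x hx
  exact hA B hB hc hxB

theorem OT_of_surj {X Y : Type*} [TopologicalSpace X] [TopologicalSpace Y] [CompactSpace X]
    [T2Space Y] (f : X → Y) (hf : Continuous f) (hs : Function.Surjective f) (h : OT X) : OT Y := by
  intro A hA
  have h1 : OC (f ⁻¹' A) := by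
    intro B hB hc x hx
    have h2 : f '' B ⊆ A := by
      rintro _ ⟨b, hb, rfl⟩
      exact hB hb
    exact hA _ h2 (hc.image f) (image_closure_subset_closure_image hf ⟨x, hx, rfl⟩)
  have h3 := (h _ h1).isCompact.image hf
  rw [Set.image_preimage_eq _ hs] at h3
  exact h3.isClosed

theorem OT_prod {X Y : Type*} [TopologicalSpace X] [TopologicalSpace Y] [CompactSpace X]
    [CompactSpace Y] [T2Space X] [T2Space Y] (hX : OT X) (hY : OT Y) : OT (X × Y) := by
  intro A hA
  rw [← closure_subset_iff_isClosed]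
  rintro ⟨x, y⟩ hxy
  by_contra hn
  have hAy : IsClosed {x' | (x', y) ∈ A} := by
    apply hX
    intro B hB hc x' hx'
    have h2 : (fun t => (t, y)) '' B ⊆ A := by
      rintro _ ⟨b, hb, rfl⟩
      exact hB hb
    have hcont : Continuous (fun t : X => (t, y)) := by fun_prop
    exact hA _ h2 (hc.image _) (image_closure_subset_closure_image hcont ⟨x', hx', rfl⟩)
  have hnb : {x' | (x', y) ∈ A}ᶜ ∈ 𝓝 x := hAy.isOpen_compl.mem_nhds hn
  obtain ⟨U, hU, hUc, hUs⟩ := exists_mem_nhds_isClosed_subset hnb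
  have hP : IsClosed {y' | ∃ u ∈ U, (u, y') ∈ A} := by
    apply hY
    intro B hB hc y' hy'
    have hB' : ∀ b ∈ B, ∃ u ∈ U, (u, b) ∈ A := fun b hb => hB hb
    rcases isEmpty_or_nonempty X with hX0 | hX0
    · exact (hX0.false x).elim
    choose! u hu huA using hB'
    have h2 : (fun t => (u t, t)) '' B ⊆ A := by
      rintro _ ⟨b, hb, rfl⟩
      exact huA b hb
    have h3 := hA _ h2 (hc.image _)
    have h4 : IsClosed (Prod.snd '' (closure ((fun t => (u t, t)) '' B))) :=
      (isClosed_closure.isCompact.image continuous_snd).isClosed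
    have h5 : closure B ⊆ Prod.snd '' (closure ((fun t => (u t, t)) '' B)) := by
      apply closure_minimal _ h4
      intro b hb
      exact ⟨(u b, b), subset_closure ⟨b, hb, rfl⟩, rfl⟩
    obtain ⟨⟨u', y''⟩, h6, h7⟩ := h5 hy'
    simp only at h7
    subst h7
    refine ⟨u', ?_, h3 h6⟩
    have h8 : closure ((fun t => (u t, t)) '' B) ⊆ U ×ˢ univ := by
      apply closure_minimal _ (hUc.prod isClosed_univ)
      rintro _ ⟨b, hb, rfl⟩
      exact ⟨hu b hb, mem_univ _⟩
    exact (h8 h6).1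
  have h9 : y ∈ closure {y' | ∃ u ∈ U, (u, y') ∈ A} := by
    rw [mem_closure_iff_nhds]
    intro V hV
    have h10 : U ×ˢ V ∈ 𝓝 (x, y) := prod_mem_nhds hU hV
    obtain ⟨⟨a, b⟩, ⟨h11, h12⟩, h13⟩ := mem_closure_iff_nhds.1 hxy _ h10
    exact ⟨b, h12, a, h11, h13⟩
  rw [hP.closure_eq] at h9
  obtain ⟨u, hu, huA⟩ := h9
  exact hUs hu huA

theorem OT_pi {X : Type*} [TopologicalSpace X] [CompactSpace X] [T2Space X] (hX : OT X) (m : ℕ) :
    OT (Fin m → X) := by
  induction m with
  | zero =>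
    intro A _
    exact (Set.toFinite A).isClosed
  | succ m ih =>
    refine OT_of_surj (fun p : X × (Fin m → X) => (Fin.cons p.1 p.2 : Fin (m + 1) → X)) ?_ ?_
      (OT_prod hX ih)
    · exact Continuous.finCons continuous_fst continuous_snd
    · intro g
      exact ⟨(g 0, Fin.tail g), Fin.cons_self_tail g⟩

theorem OT_closed {X : Type*} [TopologicalSpace X] (hX : OT X) {B : Set X} (hB : IsClosed B) :
    OT B := by
  intro A hA
  have h1 : OC ((↑) '' A : Set X) := by
    intro C hC hc x hx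
    have h2 : C ⊆ B := by
      intro c hcc
      obtain ⟨a, -, rfl⟩ := hC hcc
      exact a.2
    have h3 : x ∈ B := (closure_minimal h2 hB) hx
    have h4 : ((↑) ⁻¹' C : Set B) ⊆ A := by
      intro c hcc
      obtain ⟨a, ha, hac⟩ := hC hcc
      rwa [Subtype.ext hac] at ha
    have h5 := hA _ h4 (hc.preimage Subtype.val_injective)
    refine ⟨⟨x, h3⟩, h5 ?_, rfl⟩
    rw [Topology.IsInducing.subtypeVal.closure_eq_preimage_closure_image]
    show x ∈ closure _
    rwa [Subtype.image_preimage_coe, Set.inter_eq_right.2 h2]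
  have h6 := (hX _ h1).preimage (continuous_subtype_val (p := fun x => x ∈ B))
  rwa [Set.preimage_image_eq _ Subtype.val_injective] at h6

/-- there is no uncountable independent family -/
theorem no_indep {Y J : Type*} [TopologicalSpace Y] [CompactSpace Y] (hY : OT Y) (S : Set J)
    (hS : ¬ S.Countable) (K W : J → Set Y) (hK : ∀ β ∈ S, IsClosed (K β))
    (hW : ∀ β ∈ S, IsOpen (W β)) (hKW : ∀ β ∈ S, K β ⊆ W β)
    (h : ∀ e : J → Bool, ∃ y, ∀ β ∈ S, (e β = true → y ∈ K β) ∧ (e β = false → y ∉ W β)) :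
    False := by
  classical
  have hA : IsClosed {y : Y | ∃ C : Set J, C.Countable ∧ ∀ β ∈ S \ C, y ∉ W β} := by
    apply hY
    intro B hB hc
    have hB' : ∀ b ∈ B, ∃ C : Set J, C.Countable ∧ ∀ β ∈ S \ C, b ∉ W β := fun b hb => hB hb
    choose! C hC1 hC2 using hB'
    intro y hy
    refine ⟨⋃ b ∈ B, C b, hc.biUnion fun b hb => hC1 b hb, ?_⟩
    rintro β ⟨hβS, hβC⟩
    have h1 : closure B ⊆ (W β)ᶜ := by
      apply closure_minimal _ (hW β hβS).isClosed_compl
      intro b hb
      refine hC2 b hb β ⟨hβS, fun hh => hβC ?_⟩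
      exact mem_biUnion hb hh
    exact h1 hy
  have h2 : ({y : Y | ∃ C : Set J, C.Countable ∧ ∀ β ∈ S \ C, y ∉ W β} ∩
      ⋂ β : S, K β).Nonempty := by
    apply IsCompact.inter_iInter_nonempty hA.isCompact (fun β : S => K β) (fun β => hK β β.2)
    intro u
    obtain ⟨y, hy⟩ := h fun β => decide (∃ hβ : β ∈ S, (⟨β, hβ⟩ : S) ∈ u)
    refine ⟨y, ⟨((↑) '' (u : Set S)), (u.finite_toSet.image _).countable, ?_⟩, ?_⟩
    · rintro β ⟨hβS, hβC⟩
      refine (hy β hβS).2 ?_
      rw [decide_eq_false_iff_not]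
      rintro ⟨hβ, hu⟩
      exact hβC ⟨_, hu, rfl⟩
    · simp only [mem_iInter]
      intro β hβ
      refine (hy β β.2).1 ?_
      rw [decide_eq_true_iff]
      exact ⟨β.2, hβ⟩
  obtain ⟨y, ⟨C, hC, hyC⟩, hy⟩ := h2
  have h3 : (S \ C).Nonempty := by
    by_contra hne
    rw [Set.not_nonempty_iff_eq_empty, Set.sdiff_eq_empty] at hne
    exact hS (hC.mono hne)
  obtain ⟨β, hβ⟩ := h3
  exact hyC β hβ (hKW β hβ.1 (mem_iInter.1 hy ⟨β, hβ.1⟩))

end Pool.Agent.H69R3
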