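import Mathlib
import Pool.Agent.H69R3.Tight

set_option autoImplicit false

open Set Topology Filter

namespace Pool.Agent.H69R3

open Pool.Agent.Helper126 (delta_system uncountable_fiber)

open Classical in
/-- flip of a coordinate -/
noncomputable def fl {J : Type*} (β : J) (d : J → Bool) : J → Bool := Function.update d β (!d β)

theorem fl_self {J : Type*} (β : J) (d : J → Bool) : fl β d β = !d β := by
  simp [fl]

theorem fl_ne {J : Type*} {β j : J} (h : j ≠ β) (d : J → Bool) : fl β d j = d j := by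
  simp [fl, h]

theorem fl_fl {J : Type*} (β : J) (d : J → Bool) : fl β (fl β d) = d := by
  funext j
  by_cases h : j = β
  · subst h; rw [fl_self, fl_self, Bool.not_not]
  · rw [fl_ne h, fl_ne h]

theorem continuous_fl {J : Type*} (β : J) : Continuous (fl β : (J → Bool) → (J → Bool)) := by
  apply continuous_pi
  intro j
  by_cases h : j = β
  · subst h
    simp only [fl_self]
    exact (continuous_of_discreteTopology (f := fun b : Bool => !b)).comp (continuous_apply j)
  · simp only [fl_ne h]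
    exact continuous_apply j

/-- cylinder neighbourhoods -/
theorem exists_cyl {J : Type*} {U : Set (J → Bool)} (hU : IsOpen U) {d : J → Bool} (hd : d ∈ U) :
    ∃ G : Finset J, ∀ d' : J → Bool, (∀ j ∈ G, d' j = d j) → d' ∈ U := by
  obtain ⟨G, u, hu, hs⟩ := isOpen_pi_iff.1 hU d hd
  refine ⟨G, fun d' hd' => hs ?_⟩
  intro j hj
  rw [hd' j hj]
  exact (hu j hj).2

theorem isOpen_cyl {J : Type*} (G : Finset J) (d : J → Bool) :
    IsOpen {d' : J → Bool | ∀ j ∈ G, d' j = d j} := by
  have : {d' : J → Bool | ∀ j ∈ G, d' j = d j} = ⋂ j ∈ G, (fun d' : J → Bool => d' j) ⁻¹' {d j} := by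
    ext d'
    simp
  rw [this]
  exact isOpen_biInter_finset fun j _ => (isOpen_discrete _).preimage (continuous_apply j)

/-- amalgamation of finite conditions -/
theorem amalg {J : Type*} (S : Set J) (hS : ¬ S.Countable) (G : J → Finset J)
    (s : J → J → Bool) : ∃ S' ⊆ S, ¬ S'.Countable ∧ ∃ t : J → Bool,
      ∀ β ∈ S', ∀ j ∈ G β, j ≠ β → (j ∉ S' ∧ t j = s β j) := by
  classical
  obtain ⟨S1, R, h1, h2, h3, h4⟩ := delta_system (fun β => insert β (G β)) S hS
  have h5 : ¬ (S1 \ (R : Set J)).Countable := by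
    intro h
    apply h2
    refine ((h.union R.countable_toSet)).mono ?_
    intro x hx
    by_cases hxR : x ∈ (R : Set J)
    · exact Or.inr hxR
    · exact Or.inl ⟨hx, hxR⟩
  obtain ⟨r, hr⟩ := uncountable_fiber (fun β => fun j : R => s β j) (S1 \ (R : Set J)) h5
  set S3 := {β ∈ S1 \ (R : Set J) | (fun j : R => s β j) = r} with hS3
  refine ⟨S3, fun β hβ => h1 hβ.1.1, hr, fun j =>
    if hj : j ∈ R then r ⟨j, hj⟩ else
      if h : ∃ β ∈ S3, j ∈ G β then s h.choose j else false, ?_⟩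
  intro β hβ j hj hjβ
  constructor
  · intro hjS
    have h6 := h4 β hβ.1.1 j hjS.1.1 (Ne.symm hjβ) j (Finset.mem_insert_of_mem hj)
      (Finset.mem_insert_self _ _)
    exact hjS.1.2 h6
  · by_cases hjR : j ∈ R
    · simp only [hjR, dif_pos]
      have := congrFun hβ.2 ⟨j, hjR⟩
      exact this.symm
    · have hex : ∃ β ∈ S3, j ∈ G β := ⟨β, hβ, hj⟩
      simp only [hjR, hex, dif_pos, dif_neg, not_false_eq_true]
      obtain ⟨h7, h8⟩ := hex.choose_spec
      have h9 : hex.choose = β := by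
        by_contra hne
        exact hjR (h4 _ h7.1.1 β hβ.1.1 hne j (Finset.mem_insert_of_mem h8)
          (Finset.mem_insert_of_mem hj))
      rw [h9]

/-- minimal closed sets which project onto the whole cube -/
theorem exists_minimal {D Y : Type*} [TopologicalSpace D] [TopologicalSpace Y] [CompactSpace Y]
    {M : Set (D × Y)} (hM : IsClosed M) (hp : ∀ d, ∃ y, (d, y) ∈ M) :
    ∃ L ⊆ M, IsClosed L ∧ (∀ d, ∃ y, (d, y) ∈ L) ∧
      ∀ L' ⊆ L, IsClosed L' → (∀ d, ∃ y, (d, y) ∈ L') → L' = L := by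
  obtain ⟨L, hLM, hL⟩ := zorn_superset_nonempty
    {L : Set (D × Y) | IsClosed L ∧ ∀ d, ∃ y, (d, y) ∈ L} (by
      intro c hc hchain hne
      refine ⟨⋂₀ c, ⟨isClosed_sInter fun s hs => (hc hs).1, ?_⟩, fun s hs => sInter_subset_of_mem hs⟩
      intro d
      have h1 : (⋂ s : c, {y | (d, y) ∈ (s : Set (D × Y))}).Nonempty := by
        have : Nonempty c := hne.to_subtype
        apply IsCompact.nonempty_iInter_of_directed_nonempty_isCompact_isClosed
        · intro s t
          rcases hchain.total s.2 t.2 with h | h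
          · exact ⟨s, fun y hy => hy, fun y hy => h hy⟩
          · exact ⟨t, fun y hy => h hy, fun y hy => hy⟩
        · intro s
          exact (hc s.2).2 d
        · intro s
          exact ((hc s.2).1.preimage (by fun_prop : Continuous fun y : Y => (d, y))).isCompact
        · intro s
          exact (hc s.2).1.preimage (by fun_prop : Continuous fun y : Y => (d, y))
      obtain ⟨y, hy⟩ := h1
      refine ⟨y, ?_⟩
      rw [mem_sInter]
      intro s hs
      exact mem_iInter.1 hy ⟨s, hs⟩) M ⟨hM, hp⟩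
  refine ⟨L, hLM, hL.1.1, hL.1.2, ?_⟩
  intro L' h1 h2 h3
  exact Subset.antisymm h1 (hL.2 ⟨h2, h3⟩ h1)

/-- a minimal closed set over the Cantor cube with values in a compact space of countable tightness
is invariant under all but countably many flips -/
theorem countable_flips {J Y : Type*} [TopologicalSpace Y] [CompactSpace Y] [T2Space Y]
    (hY : OT Y) {L : Set ((J → Bool) × Y)} (hL : IsClosed L) (hp : ∀ d, ∃ y, (d, y) ∈ L)
    (hmin : ∀ L' ⊆ L, IsClosed L' → (∀ d, ∃ y, (d, y) ∈ L') → L' = L) :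
    {β : J | ∃ d y, (d, y) ∈ L ∧ (fl β d, y) ∉ L}.Countable := by
  classical
  by_contra hS
  set S := {β : J | ∃ d y, (d, y) ∈ L ∧ (fl β d, y) ∉ L} with hSdef
  have key : ∀ β ∈ S, ∃ (G : Finset J) (s : J → Bool) (K W : Set Y), β ∈ G ∧ IsClosed K ∧
      IsOpen W ∧ K ⊆ W ∧
      (∀ d' : J → Bool, (∀ j ∈ G, d' j = s j) → ∀ y', (d', y') ∈ L → y' ∈ K) ∧
      (∀ d' : J → Bool, (∀ j ∈ G, j ≠ β → d' j = s j) → d' β = !s β →
        ∀ y', (d', y') ∈ L → y' ∉ W) := by
    rintro β ⟨d, y, hdy, hfy⟩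
    have h1 : Lᶜ ∈ 𝓝 (fl β d, y) := hL.isOpen_compl.mem_nhds hfy
    obtain ⟨U, W, hU, hyU, hW, hyW, hUW⟩ := mem_nhds_prod_iff'.1 h1
    obtain ⟨F, hF⟩ := exists_cyl hU hyU
    obtain ⟨K, hK, hKc, hKW⟩ := exists_mem_nhds_isClosed_subset (hW.mem_nhds hyW)
    have hyK : y ∈ interior K := mem_interior_iff_mem_nhds.2 hK
    set C : Set (J → Bool) := {d' | ∀ j ∈ insert β F, d' j = d j} with hC
    have hCo : IsOpen C := isOpen_cyl _ _
    have hne : L \ (C ×ˢ interior K) ≠ L := by
      intro h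
      have : (d, y) ∈ L \ (C ×ˢ interior K) := by rw [h]; exact hdy
      exact this.2 ⟨fun j _ => rfl, hyK⟩
    have hcl : IsClosed (L \ (C ×ˢ interior K)) :=
      hL.sdiff (hCo.prod isOpen_interior)
    have h2 : ∃ d1, ∀ y', (d1, y') ∉ L \ (C ×ˢ interior K) := by
      by_contra hcon
      push Not at hcon
      exact hne (hmin _ sdiff_subset hcl hcon)
    obtain ⟨d1, hd1⟩ := h2
    have h3 : IsClosed (Prod.fst '' (L \ (C ×ˢ interior K))) :=
      isClosedMap_fst_of_compactSpace _ hcl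
    have h4 : d1 ∈ (Prod.fst '' (L \ (C ×ˢ interior K)))ᶜ := by
      rintro ⟨⟨a, b⟩, hab, rfl⟩
      exact hd1 b hab
    obtain ⟨F1, hF1⟩ := exists_cyl h3.isOpen_compl h4
    have h5 : ∀ d' : J → Bool, (∀ j ∈ F1, d' j = d1 j) → ∀ y', (d', y') ∈ L →
        d' ∈ C ∧ y' ∈ interior K := by
      intro d' hd' y' hy'
      by_contra hcon
      exact hF1 d' hd' ⟨(d', y'), ⟨hy', fun h => hcon ⟨h.1, h.2⟩⟩, rfl⟩
    have h6 : d1 ∈ C := by
      obtain ⟨y', hy'⟩ := hp d1
      exact (h5 d1 (fun j _ => rfl) y' hy').1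
    refine ⟨insert β (F ∪ F1), d1, K, W, Finset.mem_insert_self _ _, hKc, hW, hKW, ?_, ?_⟩
    · intro d' hd' y' hy'
      refine interior_subset (h5 d' (fun j hj => hd' j ?_) y' hy').2
      exact Finset.mem_insert_of_mem (Finset.mem_union_right _ hj)
    · intro d' hd' hβ y' hy' hyW'
      have h7 : d' ∈ U := by
        apply hF
        intro j hj
        by_cases hjβ : j = β
        · subst hjβ
          rw [hβ, fl_self, h6 j (Finset.mem_insert_self _ _)]
        · rw [fl_ne hjβ, hd' j (Finset.mem_insert_of_mem (Finset.mem_union_left _ hj)) hjβ,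
            h6 j (Finset.mem_insert_of_mem hj)]
      exact hUW (mk_mem_prod h7 hyW') hy'
  choose! G s K W hβG hK hW hKW hin hout using key
  obtain ⟨S', hS'S, hS', t, ht⟩ := amalg S hS G s
  refine no_indep hY S' hS' K W (fun β hβ => hK β (hS'S hβ)) (fun β hβ => hW β (hS'S hβ))
    (fun β hβ => hKW β (hS'S hβ)) ?_
  intro e
  obtain ⟨y, hy⟩ := hp fun j => if j ∈ S' then (if e j = true then s j j else !s j j) else t j
  refine ⟨y, fun β hβ => ⟨fun he => ?_, fun he => ?_⟩⟩
  · refine hin β (hS'S hβ) _ ?_ y hy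
    intro j hj
    by_cases hjβ : j = β
    · subst hjβ
      simp [hβ, he]
    · obtain ⟨h1, h2⟩ := ht β hβ j hj hjβ
      simp [h1, h2]
  · refine hout β (hS'S hβ) _ ?_ ?_ y hy
    · intro j hj hjβ
      obtain ⟨h1, h2⟩ := ht β hβ j hj hjβ
      simp [h1, h2]
    · simp [hβ, he]

end Pool.Agent.H69R3
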