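import Mathlib
import Pool.Agent.H69R3.Usco
import Pool.Agent.H69R3.Defs

set_option autoImplicit false

open Set Topology Filter

namespace Pool.Agent.H69R3

open Pool.Agent.Helper126 (delta_system uncountable_fiber)

theorem interp {X : Type*} [TopologicalSpace X] [CompactSpace X] [T2Space X] (E : Finset X)
    (v : X → ℝ) : ∃ f : Cp X, ∀ x ∈ E, f.1 x = v x := by
  have hE : IsClosed (E : Set X) := E.finite_toSet.isClosed
  have : Finite (E : Set X) := E.finite_toSet
  let g : C((E : Set X), ℝ) := ⟨fun x => v x, continuous_of_discreteTopology⟩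
  obtain ⟨f, hf⟩ := ContinuousMap.exists_restrict_eq hE g
  refine ⟨⟨f, f.continuous⟩, fun x hx => ?_⟩
  have := congrArg (fun k : C((E : Set X), ℝ) => k ⟨x, hx⟩) hf
  exact this

/-- neighbourhoods in `C_p(X)` -/
theorem cp_nhds {X : Type*} [TopologicalSpace X] {φ : Cp X → ℝ} (hφ : Continuous φ) (f : Cp X)
    {ε : ℝ} (hε : 0 < ε) : ∃ (G : Finset X) (δ : ℝ), 0 < δ ∧
      ∀ g : Cp X, (∀ x ∈ G, |g.1 x - f.1 x| < δ) → |φ g - φ f| < ε := by
  have h1 : φ ⁻¹' (Metric.ball (φ f) ε) ∈ 𝓝 f :=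
    hφ.continuousAt.preimage_mem_nhds (Metric.ball_mem_nhds _ hε)
  rw [nhds_subtype_eq_comap, mem_comap] at h1
  obtain ⟨t, ht, hts⟩ := h1
  rw [nhds_pi, Filter.mem_pi] at ht
  obtain ⟨I, hI, u, hu, hIu⟩ := ht
  have h2 : ∀ x : X, ∃ δ : ℝ, 0 < δ ∧ Metric.ball (f.1 x) δ ⊆ u x := fun x =>
    Metric.mem_nhds_iff.1 (hu x)
  choose δ hδ hδu using h2
  rcases hI.toFinset.eq_empty_or_nonempty with he | hne
  · refine ⟨∅, 1, one_pos, fun g _ => ?_⟩
    have h3 : g ∈ φ ⁻¹' (Metric.ball (φ f) ε) := by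
      apply hts
      apply hIu
      intro x hx
      exfalso
      have : x ∈ hI.toFinset := hI.mem_toFinset.2 hx
      rw [he] at this
      exact Finset.notMem_empty _ this
    have h4 := Metric.mem_ball.1 h3
    rwa [Real.dist_eq] at h4
  · obtain ⟨x0, hx0, hmin⟩ := hI.toFinset.exists_min_image δ hne
    refine ⟨hI.toFinset, δ x0, hδ x0, fun g hg => ?_⟩
    have h3 : g ∈ φ ⁻¹' (Metric.ball (φ f) ε) := by
      apply hts
      apply hIu
      intro x hx
      have hx' : x ∈ hI.toFinset := hI.mem_toFinset.2 hx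
      apply hδu x
      rw [Metric.mem_ball, Real.dist_eq]
      exact (hg x hx').trans_le (hmin x hx')
    have h4 := Metric.mem_ball.1 h3
    rwa [Real.dist_eq] at h4

/-- the cube is separable -/
theorem cube_separable {J : Type*} (i : J → ℕ → Bool) (hi : Function.Injective i) :
    ∃ Q : Set (J → Bool), Q.Countable ∧ Dense Q := by
  classical
  refine ⟨range fun p : Σ n : ℕ, ((Fin n → Bool) → Bool) => fun j => p.2 fun k => i j k,
    countable_range _, ?_⟩
  intro d
  rw [mem_closure_iff]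
  intro U hU hd
  obtain ⟨G, hG⟩ := exists_cyl hU hd
  have h1 : ∀ p : J × J, ∃ k : ℕ, p.1 ≠ p.2 → i p.1 k ≠ i p.2 k := by
    rintro ⟨j, j'⟩
    by_cases h : j = j'
    · exact ⟨0, fun h' => absurd h h'⟩
    · have : i j ≠ i j' := fun h' => h (hi h')
      obtain ⟨k, hk⟩ := Function.ne_iff.1 this
      exact ⟨k, fun _ => hk⟩
  choose k hk using h1
  set n := (G ×ˢ G).sup k + 1 with hn
  refine ⟨fun j => decide (∃ j' ∈ G, (fun m : Fin n => i j' m) = (fun m : Fin n => i j m) ∧
    d j' = true), hG _ ?_, ⟨⟨n, fun w => decide (∃ j' ∈ G, (fun m : Fin n => i j' m) = w ∧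
    d j' = true)⟩, rfl⟩⟩
  intro j hj
  have h2 : ∀ j' ∈ G, (fun m : Fin n => i j' m) = (fun m : Fin n => i j m) → j' = j := by
    intro j' hj' h
    by_contra hne
    have h3 : k (j', j) < n := by
      rw [hn]
      exact Nat.lt_succ_of_le (Finset.le_sup (f := k) (Finset.mk_mem_product hj' hj))
    exact hk (j', j) hne (congrFun h ⟨_, h3⟩)
  cases hdj : d j with
  | true =>
    rw [decide_eq_true_iff]
    exact ⟨j, hj, rfl, hdj⟩
  | false =>
    rw [decide_eq_false_iff_not]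
    rintro ⟨j', hj', h3, h4⟩
    rw [h2 j' hj' h3, hdj] at h4
    exact absurd h4 (by simp)

/-- selection of a part which is invariant under all but countably many flips -/
theorem inv_select {X : Type*} [TopologicalSpace X] [CompactSpace X] [T2Space X]
    (hT : ∀ B : Set X, IsClosed B → (∃ Q : Set X, Q.Countable ∧ Q ⊆ B ∧ B ⊆ closure Q) → OT B)
    {J : Type*} (i : J → ℕ → Bool) (hi : Function.Injective i) (k : ℕ)
    {M : Set ((J → Bool) × (Fin k → X))} (hM : IsClosed M) (hp : ∀ d, ∃ F, (d, F) ∈ M) :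
    ∃ L ⊆ M, (∀ d, ∃ F, (d, F) ∈ L) ∧ ∃ c : Set J, c.Countable ∧
      ∀ γ ∉ c, ∀ d F, (d, F) ∈ L → (fl γ d, F) ∈ L := by
  obtain ⟨Q, hQ, hQd⟩ := cube_separable i hi
  obtain ⟨L0, h0M, h0c, h0p, h0m⟩ := exists_minimal hM hp
  choose y hy using h0p
  have h1 : closure ((fun d => (d, y d)) '' Q) = L0 := by
    apply h0m
    · apply closure_minimal _ h0c
      rintro _ ⟨d, -, rfl⟩
      exact hy d
    · exact isClosed_closure
    · intro d
      have h2 : IsClosed (Prod.fst '' closure ((fun d => (d, y d)) '' Q)) :=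
        isClosedMap_fst_of_compactSpace _ isClosed_closure
      have h3 : closure Q ⊆ Prod.fst '' closure ((fun d => (d, y d)) '' Q) := by
        apply closure_minimal _ h2
        intro d hd
        exact ⟨(d, y d), subset_closure ⟨d, hd, rfl⟩, rfl⟩
      obtain ⟨⟨a, b⟩, hab, rfl⟩ := h3 (hQd d)
      exact ⟨b, hab⟩
  set B : Set X := ⋃ j : Fin k, closure ((fun d => y d j) '' Q) with hB
  have hBc : IsClosed B := isClosed_iUnion_of_finite fun j => isClosed_closure
  have hBT : OT B := by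
    refine hT B hBc ⟨⋃ j : Fin k, (fun d => y d j) '' Q, countable_iUnion fun j => hQ.image _,
      iUnion_mono fun j => subset_closure, ?_⟩
    rw [hB]
    exact iUnion_subset fun j => closure_mono (subset_iUnion (fun j : Fin k =>
      (fun d => y d j) '' Q) j)
  have h2 : ∀ d F, (d, F) ∈ L0 → ∀ j, F j ∈ B := by
    intro d F hdF j
    rw [← h1] at hdF
    refine mem_iUnion.2 ⟨j, ?_⟩
    have h3 := image_closure_subset_closure_image
      (f := fun p : (J → Bool) × (Fin k → X) => p.2 j) (by fun_prop)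
      ⟨(d, F), hdF, rfl⟩
    rwa [Set.image_image] at h3
  have : CompactSpace B := isCompact_iff_compactSpace.1 hBc.isCompact
  set ι : (J → Bool) × (Fin k → B) → (J → Bool) × (Fin k → X) :=
    fun p => (p.1, fun j => (p.2 j : X)) with hι
  have hιc : Continuous ι := by
    rw [hι]; fun_prop
  obtain ⟨L2, h2M, h2c, h2p, h2m⟩ := exists_minimal (M := ι ⁻¹' L0) (h0c.preimage hιc) (by
    intro d
    exact ⟨fun j => ⟨y d j, h2 d (y d) (hy d) j⟩, hy d⟩)
  have h3 := countable_flips (OT_pi hBT k) h2c h2p h2m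
  refine ⟨ι '' L2, ?_, ?_, _, h3, ?_⟩
  · rintro _ ⟨p, hp, rfl⟩
    exact h0M (h2M hp)
  · intro d
    obtain ⟨F, hF⟩ := h2p d
    exact ⟨_, (d, F), hF, rfl⟩
  · intro γ hγ d F hdF
    obtain ⟨⟨d', F'⟩, hF', h4⟩ := hdF
    simp only [hι, Prod.mk.injEq] at h4
    obtain ⟨rfl, rfl⟩ := h4
    by_contra hcon
    apply hγ
    refine ⟨d', F', hF', fun h => hcon ⟨_, h, rfl⟩⟩

end Pool.Agent.H69R3
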