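import Mathlib
import Pool.Agent.H69R3.Core

set_option autoImplicit false

open Set Topology Filter

namespace Pool.Agent.H69R3

/-- `Ctl Θ h η δ m`: the set of all pairs `(d, S)` such that the finite sequence `S` controls `Θ d`
at the function `h` -/
def Ctl {D X : Type*} [TopologicalSpace X] (Θ : D → Cp X → ℝ) (h : Cp X) (η δ : ℝ) (m : ℕ) :
    Set (D × (Fin m → X)) :=
  {p | ∀ f : Cp X, (∀ a, |f.1 (p.2 a) - h.1 (p.2 a)| < δ) → |Θ p.1 f - Θ p.1 h| ≤ η}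

theorem isClosed_ctl {D X : Type*} [TopologicalSpace D] [TopologicalSpace X] {Θ : D → Cp X → ℝ}
    (h1 : ∀ f, Continuous fun d => Θ d f) (h : Cp X) (η δ : ℝ) (m : ℕ) :
    IsClosed (Ctl Θ h η δ m) := by
  have : Ctl Θ h η δ m =
      ⋂ f : Cp X, ((⋃ i : Fin m, {p | δ ≤ |f.1 (p.2 i) - h.1 (p.2 i)|}) ∪
        {p | |Θ p.1 f - Θ p.1 h| ≤ η}) := by
    ext p
    simp only [Ctl, mem_ofPred_eq, mem_iInter, mem_union, mem_iUnion]
    refine forall_congr' fun f => ?_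
    constructor
    · intro hf
      by_cases hh : ∀ i, |f.1 (p.2 i) - h.1 (p.2 i)| < δ
      · exact Or.inr (hf hh)
      · push Not at hh
        exact Or.inl hh
    · rintro (⟨i, hi⟩ | hf) hh
      · exact absurd (hh i) (not_lt.2 hi)
      · exact hf
  rw [this]
  refine isClosed_iInter fun f => IsClosed.union (isClosed_iUnion_of_finite fun i => ?_) ?_
  · refine isClosed_le continuous_const ?_
    have e1 : Continuous fun p : D × (Fin m → X) => p.2 i := by fun_prop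
    exact ((f.2.comp e1).sub (h.2.comp e1)).abs
  · refine isClosed_le ?_ continuous_const
    exact (((h1 f).comp continuous_fst).sub ((h1 h).comp continuous_fst)).abs

theorem exists_ctl {D X : Type*} [TopologicalSpace X] [Nonempty X] {Θ : D → Cp X → ℝ}
    (h2 : ∀ d, Continuous (Θ d)) (h : Cp X) {η : ℝ} (hη : 0 < η) (d : D) :
    ∃ n : ℕ, ∃ F : Fin (n + 1) → X, (d, F) ∈ Ctl Θ h η (1 / (n + 1 : ℝ)) (n + 1) := by
  classical
  obtain ⟨G, δ, hδ, hG⟩ := cp_nhds (h2 d) h hη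
  obtain ⟨m, hm⟩ := exists_nat_one_div_lt hδ
  set n := max m G.card with hn
  have hle : 1 / ((n : ℝ) + 1) ≤ 1 / ((m : ℝ) + 1) := by
    apply one_div_le_one_div_of_le (by positivity)
    have : (m : ℝ) ≤ n := by exact_mod_cast le_max_left _ _
    linarith
  obtain ⟨F, hF⟩ : ∃ F : Fin (n + 1) → X, ∀ x ∈ G, ∃ k, F k = x := by
    refine ⟨fun k => if hk : (k : ℕ) < G.card then
      (G.equivFin.symm ⟨k, hk⟩ : X) else Classical.arbitrary X, fun x hx => ?_⟩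
    have h3 : (G.equivFin ⟨x, hx⟩ : ℕ) < n + 1 :=
      ((G.equivFin ⟨x, hx⟩).2.trans_le (le_max_right _ _)).trans (Nat.lt_succ_self _)
    refine ⟨⟨_, h3⟩, ?_⟩
    simp
  refine ⟨n, F, ?_⟩
  intro f hf
  refine (hG f fun x hx => ?_).le
  obtain ⟨k, rfl⟩ := hF x hx
  exact ((hf k).trans_le hle).trans hm

/-- Baire category inside an open set -/
theorem baire_open {D : Type*} [TopologicalSpace D] [BaireSpace D] {V : Set D} (hV : IsOpen V)
    (hne : V.Nonempty) (C : ℕ → Set D) (hC : ∀ n, IsClosed (C n)) (hVC : V ⊆ ⋃ n, C n) :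
    ∃ n, ∃ V' ⊆ V, IsOpen V' ∧ V'.Nonempty ∧ V' ⊆ C n := by
  have h1 : Dense (⋃ n, interior (C n ∪ Vᶜ)) := by
    apply dense_iUnion_interior_of_closed
    · intro n
      exact (hC n).union hV.isClosed_compl
    · rw [eq_univ_iff_forall]
      intro d
      by_cases hd : d ∈ V
      · obtain ⟨n, hn⟩ := mem_iUnion.1 (hVC hd)
        exact mem_iUnion.2 ⟨n, Or.inl hn⟩
      · exact mem_iUnion.2 ⟨0, Or.inr hd⟩
  obtain ⟨x, hxV, hx⟩ := h1.inter_open_nonempty V hV hne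
  obtain ⟨n, hn⟩ := mem_iUnion.1 hx
  refine ⟨n, V ∩ interior (C n ∪ Vᶜ), inter_subset_left, hV.inter isOpen_interior,
    ⟨x, hxV, hn⟩, ?_⟩
  rintro y ⟨hy, hy2⟩
  rcases interior_subset hy2 with h | h
  · exact h
  · exact absurd hy h

/-- local minimal control -/
theorem ctl_local {D X : Type*} [TopologicalSpace D] [BaireSpace D] [TopologicalSpace X]
    [CompactSpace X] [Nonempty X] {Θ : D → Cp X → ℝ}
    (h1 : ∀ f, Continuous fun d => Θ d f) (h2 : ∀ d, Continuous (Θ d)) (h : Cp X) {η : ℝ}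
    (hη : 0 < η) {V : Set D} (hV : IsOpen V) (hne : V.Nonempty) :
    ∃ δ : ℝ, 0 < δ ∧ ∃ m : ℕ, ∃ V' ⊆ V, IsOpen V' ∧ V'.Nonempty ∧
      (∀ d ∈ V', ∃ S, (d, S) ∈ Ctl Θ h η δ m) ∧
      (∀ d ∈ V', ∀ S : Fin m → X, ∀ i, ∃ f : Cp X, (∀ j, j ≠ i → |f.1 (S j) - h.1 (S j)| < δ) ∧
        η < |Θ d f - Θ d h|) := by
  classical
  have hcl : ∀ δ m, IsClosed (Prod.fst '' Ctl Θ h η δ m) := fun δ m =>
    isClosedMap_fst_of_compactSpace _ (isClosed_ctl h1 h η δ m)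
  obtain ⟨n, V1, hV1, hV1o, hV1n, hV1C⟩ := baire_open hV hne
    (fun n : ℕ => Prod.fst '' Ctl Θ h η (1 / (n + 1 : ℝ)) (n + 1)) (fun n => hcl _ _) (by
      intro d _
      obtain ⟨n, F, hF⟩ := exists_ctl h2 h hη d
      exact mem_iUnion.2 ⟨n, (d, F), hF, rfl⟩)
  set δ : ℝ := 1 / (n + 1 : ℝ) with hδdef
  have hδ : 0 < δ := by positivity
  have hex : ∃ m : ℕ, ∃ V' ⊆ V, IsOpen V' ∧ V'.Nonempty ∧ V' ⊆ Prod.fst '' Ctl Θ h η δ m :=
    ⟨n + 1, V1, hV1, hV1o, hV1n, hV1C⟩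
  obtain ⟨V2, hV2, hV2o, hV2n, hV2C⟩ := Nat.find_spec hex
  have hmin := fun m' => Nat.find_min (m := m') hex
  generalize Nat.find hex = m at hV2C hmin
  have hA : ∀ d ∈ V2, ∃ S, (d, S) ∈ Ctl Θ h η δ m := by
    intro d hd
    obtain ⟨⟨a, S⟩, hS, rfl⟩ := hV2C hd
    exact ⟨S, hS⟩
  cases m with
  | zero => exact ⟨δ, hδ, 0, V2, hV2, hV2o, hV2n, hA, fun d _ S i => i.elim0⟩
  | succ m =>
    refine ⟨δ, hδ, m + 1, V2 \ (Prod.fst '' Ctl Θ h η δ m), sdiff_subset.trans hV2,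
      hV2o.sdiff (hcl _ _), ?_, fun d hd => hA d hd.1, ?_⟩
    · by_contra hcon
      rw [not_nonempty_iff_eq_empty, sdiff_eq_empty] at hcon
      exact hmin m (Nat.lt_succ_self m) ⟨V2, hV2, hV2o, hV2n, hcon⟩
    · intro d hd S i
      have h3 : (d, S ∘ i.succAbove) ∉ Ctl Θ h η δ m := fun h => hd.2 ⟨_, h, rfl⟩
      simp only [Ctl, mem_ofPred_eq, not_forall, not_le] at h3
      obtain ⟨f, hf, hf2⟩ := h3
      refine ⟨f, fun j hj => ?_, hf2⟩
      obtain ⟨c, rfl⟩ := Fin.exists_succAbove_eq hj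
      exact hf c

/-- shrinking for minimal closed sets -/
theorem shrink {D Y : Type*} [TopologicalSpace D] [TopologicalSpace Y] [CompactSpace Y]
    {L : Set (D × Y)} (hL : IsClosed L) (hp : ∀ d, ∃ y, (d, y) ∈ L)
    (hmin : ∀ L' ⊆ L, IsClosed L' → (∀ d, ∃ y, (d, y) ∈ L') → L' = L)
    {W : Set (D × Y)} (hW : IsOpen W) {p : D × Y} (hpL : p ∈ L) (hpW : p ∈ W) :
    ∃ V' : Set D, IsOpen V' ∧ V'.Nonempty ∧ ∀ d ∈ V', ∀ y, (d, y) ∈ L → (d, y) ∈ W := by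
  have hcl : IsClosed (L \ W) := hL.sdiff hW
  refine ⟨(Prod.fst '' (L \ W))ᶜ, (isClosedMap_fst_of_compactSpace _ hcl).isOpen_compl, ?_, ?_⟩
  · by_contra hcon
    rw [not_nonempty_iff_eq_empty, compl_empty_iff] at hcon
    have h1 : L \ W = L := by
      apply hmin _ sdiff_subset hcl
      intro d
      obtain ⟨⟨a, y⟩, hy, rfl⟩ : d ∈ Prod.fst '' (L \ W) := by rw [hcon]; exact mem_univ _
      exact ⟨y, hy⟩
    have h2 : p ∈ L \ W := by rw [h1]; exact hpL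
    exact h2.2 hpW
  · intro d hd y hy
    by_contra hcon
    exact hd ⟨(d, y), ⟨hy, hcon⟩, rfl⟩

/-- one coordinate of the minimal set is locally single valued -/
theorem single_coord {D X : Type*} [TopologicalSpace D] [CompactSpace D] [T2Space D]
    [TopologicalSpace X] [CompactSpace X] [T2Space X] [Nonempty X] {Θ : D → Cp X → ℝ}
    (h1 : ∀ f, Continuous fun d => Θ d f) (h2 : ∀ d, Continuous (Θ d)) (h : Cp X) {η δ : ℝ}
    (hδ : 0 < δ) {k : ℕ} {L : Set (D × (Fin k → X))} (hL : IsClosed L)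
    (hp : ∀ d, ∃ y, (d, y) ∈ L)
    (hmin : ∀ L' ⊆ L, IsClosed L' → (∀ d, ∃ y, (d, y) ∈ L') → L' = L)
    {V : Set D} (hV : IsOpen V) (hne : V.Nonempty)
    (hctl : ∀ d ∈ V, ∀ F, (d, F) ∈ L → (d, F) ∈ Ctl Θ h η δ k)
    (hmn : ∀ d ∈ V, ∀ S : Fin k → X, ∀ i, ∃ f : Cp X,
      (∀ j, j ≠ i → |f.1 (S j) - h.1 (S j)| < δ) ∧ η < |Θ d f - Θ d h|) (i : Fin k) :
    ∃ V' ⊆ V, IsOpen V' ∧ V'.Nonempty ∧
      ∀ d ∈ V', ∀ F F', (d, F) ∈ L → (d, F') ∈ L → F i = F' i := by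
  classical
  obtain ⟨d0, hd0⟩ := hne
  obtain ⟨F0, hF0⟩ := hp d0
  obtain ⟨f1, hf1, hf1'⟩ := hmn d0 hd0 F0 i
  obtain ⟨η', hη', hη'2⟩ : ∃ η' : ℝ, 0 < η' ∧ η + η' < |Θ d0 f1 - Θ d0 h| :=
    ⟨(|Θ d0 f1 - Θ d0 h| - η) / 2, by linarith, by linarith⟩
  set W : Set (D × (Fin k → X)) := {p | p.1 ∈ V ∧ (∀ j, j ≠ i → |f1.1 (p.2 j) - h.1 (p.2 j)| < δ) ∧
    η + η' < |Θ p.1 f1 - Θ p.1 h|} with hWdef
  have hW : IsOpen W := by
    have e0 : W = (Prod.fst ⁻¹' V) ∩ ((⋂ j : Fin k, ⋂ _ : j ≠ i,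
        {p : D × (Fin k → X) | |f1.1 (p.2 j) - h.1 (p.2 j)| < δ}) ∩
        {p | η + η' < |Θ p.1 f1 - Θ p.1 h|}) := by
      ext p
      simp [hWdef]
    rw [e0]
    refine (hV.preimage continuous_fst).inter (IsOpen.inter ?_ ?_)
    · refine isOpen_iInter_of_finite fun j => isOpen_iInter_of_finite fun _ => ?_
      refine isOpen_lt ?_ continuous_const
      have e1 : Continuous fun p : D × (Fin k → X) => p.2 j := by fun_prop
      exact ((f1.2.comp e1).sub (h.2.comp e1)).abs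
    · exact isOpen_lt continuous_const
        (((h1 f1).comp continuous_fst).sub ((h1 h).comp continuous_fst)).abs
  obtain ⟨V1, hV1o, hV1n, hV1⟩ := shrink hL hp hmin hW hF0 (show (d0, F0) ∈ W from
    ⟨hd0, hf1, hη'2⟩)
  obtain ⟨δ1, hδ1, m, V2, hV21, hV2o, hV2n, hS, hSm⟩ := ctl_local h1 h2 f1 hη' hV1o hV1n
  -- the coordinate `i` is among the points of `S`
  have claim : ∀ d ∈ V2, ∀ F, (d, F) ∈ L → ∀ S, (d, S) ∈ Ctl Θ f1 η' δ1 m → ∃ a, S a = F i := by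
    intro d hd F hF S hS'
    by_contra hcon
    push Not at hcon
    obtain ⟨hdV, hw1, hw2⟩ := hV1 d (hV21 hd) F hF
    simp only at hdV hw1 hw2
    obtain ⟨f, hf⟩ := interp (Finset.univ.image F ∪ Finset.univ.image S) fun x =>
      if x = F i then h.1 x else f1.1 x
    have e1 := hctl d hdV F hF f (by
      intro j
      have hj : F j ∈ Finset.univ.image F ∪ Finset.univ.image S :=
        Finset.mem_union_left _ (Finset.mem_image_of_mem _ (Finset.mem_univ _))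
      show |f.1 (F j) - h.1 (F j)| < δ
      rw [hf _ hj]
      by_cases hji : F j = F i
      · rw [if_pos hji, sub_self, abs_zero]
        exact hδ
      · rw [if_neg hji]
        exact hw1 j fun hh => hji (by rw [hh]))
    have e2 := hS' f (by
      intro a
      have ha : S a ∈ Finset.univ.image F ∪ Finset.univ.image S :=
        Finset.mem_union_right _ (Finset.mem_image_of_mem _ (Finset.mem_univ _))
      show |f.1 (S a) - f1.1 (S a)| < δ1
      rw [hf _ ha, if_neg (hcon a), sub_self, abs_zero]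
      exact hδ1)
    simp only at e1 e2
    have e3 : |Θ d f1 - Θ d h| ≤ η + η' := by
      have : Θ d f1 - Θ d h = (Θ d f - Θ d h) - (Θ d f - Θ d f1) := by ring
      rw [this]
      exact (abs_sub _ _).trans (add_le_add e1 e2)
    linarith
  have hinj : ∀ d ∈ V2, ∀ S, (d, S) ∈ Ctl Θ f1 η' δ1 m → ∀ a b, S a = S b → a = b := by
    intro d hd S hS' a b hab
    by_contra hne
    obtain ⟨f, hf, hf'⟩ := hSm d hd S a
    have e1 := hS' f (by
      intro j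
      by_cases hj : j = a
      · show |f.1 (S j) - f1.1 (S j)| < δ1
        rw [hj, hab]
        exact hf b (Ne.symm hne)
      · exact hf j hj)
    simp only at e1
    linarith
  obtain ⟨d1, hd1⟩ := hV2n
  obtain ⟨K, hK, hKc, hK2⟩ := exists_mem_nhds_isClosed_subset (hV2o.mem_nhds hd1)
  have hd1K : d1 ∈ interior K := mem_interior_iff_mem_nhds.2 hK
  obtain ⟨F1, hF1⟩ := hp d1
  set 𝒮 : Set (D × (Fin m → X)) := (Prod.fst ⁻¹' K) ∩ Ctl Θ f1 η' δ1 m with h𝒮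
  have h𝒮c : IsCompact 𝒮 :=
    ((hKc.preimage continuous_fst).inter (isClosed_ctl h1 f1 η' δ1 m)).isCompact
  set C : Set (X × X) := ⋃ (a : Fin m) (b : Fin m) (_ : a ≠ b), (fun q : D × (Fin m → X) =>
    (q.2 a, q.2 b)) '' 𝒮 with hC
  have hCc : IsClosed C := by
    refine isClosed_iUnion_of_finite fun a => isClosed_iUnion_of_finite fun b =>
      isClosed_iUnion_of_finite fun _ => ?_
    exact (h𝒮c.image (by fun_prop)).isClosed
  have hpC : (F1 i, F1 i) ∉ C := by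
    intro hmem
    simp only [hC, mem_iUnion] at hmem
    obtain ⟨a, b, hab, ⟨d, S⟩, ⟨hdK, hdS⟩, hq⟩ := hmem
    simp only [Prod.mk.injEq] at hq
    exact hab (hinj d (hK2 hdK) S hdS a b (hq.1.trans hq.2.symm))
  obtain ⟨U, U', hU, hpU, hU', hpU', hUU⟩ := mem_nhds_prod_iff'.1 (hCc.isOpen_compl.mem_nhds hpC)
  obtain ⟨V', hV'o, hV'n, hV'⟩ := shrink hL hp hmin
    (W := (Prod.fst ⁻¹' interior K) ∩ {p | p.2 i ∈ U ∩ U'})
    ((isOpen_interior.preimage continuous_fst).inter ((hU.inter hU').preimage (by fun_prop)))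
    hF1 ⟨hd1K, hpU, hpU'⟩
  have hV'K : ∀ d ∈ V', d ∈ K := by
    intro d hd
    obtain ⟨F, hF⟩ := hp d
    exact interior_subset (hV' d hd F hF).1
  refine ⟨V', ?_, hV'o, hV'n, ?_⟩
  · intro d hd
    obtain ⟨F, hF⟩ := hp d
    exact (hV1 d (hV21 (hK2 (hV'K d hd))) F hF).1
  · intro d hd F F' hF hF'
    obtain ⟨S, hdS⟩ := hS d (hK2 (hV'K d hd))
    obtain ⟨a, ha⟩ := claim d (hK2 (hV'K d hd)) F hF S hdS
    obtain ⟨b, hb⟩ := claim d (hK2 (hV'K d hd)) F' hF' S hdS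
    by_contra hne
    have hab : a ≠ b := by
      rintro rfl
      exact hne (ha.symm.trans hb)
    have h3 : (F i, F' i) ∈ C := by
      simp only [hC, mem_iUnion]
      exact ⟨a, b, hab, (d, S), ⟨hV'K d hd, hdS⟩, by simp [ha, hb]⟩
    have h4 : (F i, F' i) ∈ U ×ˢ U' := ⟨(hV' d hd F hF).2.1, (hV' d hd F' hF').2.2⟩
    exact hUU h4 h3

/-- Local continuity of the controlling finite sets -/
theorem local_cont {D X : Type*} [TopologicalSpace D] [CompactSpace D] [T2Space D] [Nonempty D]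
    [TopologicalSpace X] [CompactSpace X] [T2Space X] [Nonempty X] {Θ : D → Cp X → ℝ}
    (h1 : ∀ f, Continuous fun d => Θ d f) (h2 : ∀ d, Continuous (Θ d)) (h : Cp X) {η : ℝ}
    (hη : 0 < η) : ∃ V : Set D, IsOpen V ∧ V.Nonempty ∧ ∃ δ : ℝ, 0 < δ ∧ ∃ k : ℕ,
      ∃ F : D → Fin k → X, ContinuousOn F V ∧ ∀ d ∈ V, (d, F d) ∈ Ctl Θ h η δ k := by
  classical
  obtain ⟨δ, hδ, k, V0, -, hV0o, hV0n, hS, hSm⟩ := ctl_local h1 h2 h hη isOpen_univ univ_nonempty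
  have hM : IsClosed ((Prod.fst ⁻¹' V0ᶜ) ∪ Ctl Θ h η δ k) :=
    (hV0o.isClosed_compl.preimage continuous_fst).union (isClosed_ctl h1 h η δ k)
  obtain ⟨L, hLM, hL, hp, hmin⟩ := exists_minimal hM (by
    intro d
    by_cases hd : d ∈ V0
    · obtain ⟨S, hS⟩ := hS d hd
      exact ⟨S, Or.inr hS⟩
    · exact ⟨fun _ => Classical.arbitrary X, Or.inl hd⟩)
  have hctl : ∀ d ∈ V0, ∀ F, (d, F) ∈ L → (d, F) ∈ Ctl Θ h η δ k := by
    intro d hd F hF
    rcases hLM hF with h3 | h3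
    · exact absurd hd h3
    · exact h3
  have key : ∀ T : Finset (Fin k), ∃ V' ⊆ V0, IsOpen V' ∧ V'.Nonempty ∧
      ∀ d ∈ V', ∀ F F', (d, F) ∈ L → (d, F') ∈ L → ∀ i ∈ T, F i = F' i := by
    intro T
    induction T using Finset.induction_on with
    | empty => exact ⟨V0, subset_rfl, hV0o, hV0n, fun d _ F F' _ _ i hi =>
        absurd hi (Finset.notMem_empty _)⟩
    | insert i T hi ih =>
      obtain ⟨V1, hV1, hV1o, hV1n, hV1T⟩ := ih
      obtain ⟨V2, hV2, hV2o, hV2n, hV2T⟩ := single_coord h1 h2 h hδ hL hp hmin hV1o hV1n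
        (fun d hd => hctl d (hV1 hd)) (fun d hd => hSm d (hV1 hd)) i
      refine ⟨V2, hV2.trans hV1, hV2o, hV2n, fun d hd F F' hF hF' j hj => ?_⟩
      rcases Finset.mem_insert.1 hj with rfl | hj
      · exact hV2T d hd F F' hF hF'
      · exact hV1T d (hV2 hd) F F' hF hF' j hj
  obtain ⟨V, hV, hVo, hVn, hVT⟩ := key Finset.univ
  choose F hF using hp
  refine ⟨V, hVo, hVn, δ, hδ, k, F, ?_, fun d hd => hctl d (hV hd) _ (hF d)⟩
  rw [continuousOn_iff_isClosed]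
  intro t ht
  refine ⟨Prod.fst '' (L ∩ Prod.snd ⁻¹' t),
    isClosedMap_fst_of_compactSpace _ (hL.inter (ht.preimage continuous_snd)), ?_⟩
  ext d
  constructor
  · rintro ⟨hd1, hd2⟩
    exact ⟨⟨(d, F d), ⟨hF d, hd1⟩, rfl⟩, hd2⟩
  · rintro ⟨⟨⟨a, y⟩, ⟨hy1, hy2⟩, rfl⟩, hd2⟩
    refine ⟨?_, hd2⟩
    have : F a = y := funext fun i => hVT a hd2 _ _ (hF a) hy1 i (Finset.mem_univ _)
    show F a ∈ t
    rw [this]
    exact hy2

end Pool.Agent.H69R3
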