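import Mathlib
import Pool.Agent.H69R3.Core

set_option autoImplicit false

open Set Topology Filter

namespace Pool.Agent.H69R3

open Pool.Agent.Helper126 (delta_system uncountable_fiber)

/-- `F` controls `Φ d` at the function `h β` -/
def Good {X J : Type*} [TopologicalSpace X] (Φ : (J → Bool) → Cp X → ℝ) (h : J → Cp X) (n : ℕ)
    (β : J) (d : J → Bool) (F : Fin (n + 1) → X) : Prop :=
  ∀ f : Cp X, (∀ i, |f.1 (F i) - (h β).1 (F i)| < 1 / (n + 1 : ℝ)) → |Φ d f - Φ d (h β)| ≤ 1 / 3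

theorem isClosed_good {X J : Type*} [TopologicalSpace X] {Φ : (J → Bool) → Cp X → ℝ}
    (h1 : ∀ f, Continuous fun d => Φ d f) (h : J → Cp X) (n : ℕ) (β : J) :
    IsClosed {p : (J → Bool) × (Fin (n + 1) → X) | Good Φ h n β p.1 p.2} := by
  have : {p : (J → Bool) × (Fin (n + 1) → X) | Good Φ h n β p.1 p.2} =
      ⋂ f : Cp X, ((⋃ i : Fin (n + 1), {p | 1 / (n + 1 : ℝ) ≤ |f.1 (p.2 i) - (h β).1 (p.2 i)|}) ∪
        {p | |Φ p.1 f - Φ p.1 (h β)| ≤ 1 / 3}) := by
    ext p
    simp only [Good, mem_ofPred_eq, mem_iInter, mem_union, mem_iUnion]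
    refine forall_congr' fun f => ?_
    constructor
    · intro hf
      by_cases hh : ∀ i, |f.1 (p.2 i) - (h β).1 (p.2 i)| < 1 / (n + 1 : ℝ)
      · exact Or.inr (hf hh)
      · push Not at hh
        exact Or.inl hh
    · rintro (⟨i, hi⟩ | hf) hh
      · exact absurd (hh i) (not_lt.2 hi)
      · exact hf
  rw [this]
  refine isClosed_iInter fun f => IsClosed.union (isClosed_iUnion_of_finite fun i => ?_) ?_
  · refine isClosed_le continuous_const ?_
    have e1 : Continuous fun p : (J → Bool) × (Fin (n + 1) → X) => p.2 i := by fun_prop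
    exact ((f.2.comp e1).sub ((h β).2.comp e1)).abs
  · refine isClosed_le ?_ continuous_const
    exact (((h1 f).comp continuous_fst).sub ((h1 (h β)).comp continuous_fst)).abs

/-- the case of uniform moduli -/
theorem core_uniform {X : Type*} [TopologicalSpace X] [CompactSpace X] [T2Space X]
    (hT : ∀ B : Set X, IsClosed B → (∃ Q : Set X, Q.Countable ∧ Q ⊆ B ∧ B ⊆ closure Q) → OT B)
    {J : Type*} [Uncountable J] (i : J → ℕ → Bool) (hi : Function.Injective i)
    (Φ : (J → Bool) → Cp X → ℝ) (h1 : ∀ f, Continuous fun d => Φ d f) (h : J → Cp X)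
    (hf : ∀ d β, d β = false → Φ d (h β) ≤ 0) (ht : ∀ d β, d β = true → 1 ≤ Φ d (h β)) (n : ℕ)
    (hn : ∀ β d, ∃ F, Good Φ h n β d F ∧ Good Φ h n β (fl β d) F) : False := by
  classical
  have key : ∀ β : J, ∃ L : Set ((J → Bool) × (Fin (n + 1) → X)),
      (∀ p ∈ L, Good Φ h n β p.1 p.2 ∧ Good Φ h n β (fl β p.1) p.2) ∧
      (∀ d, ∃ F, (d, F) ∈ L) ∧ ∃ c : Set J, c.Countable ∧
      ∀ γ ∉ c, ∀ d F, (d, F) ∈ L → (fl γ d, F) ∈ L := by
    intro β
    have hM : IsClosed {p : (J → Bool) × (Fin (n + 1) → X) |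
        Good Φ h n β p.1 p.2 ∧ Good Φ h n β (fl β p.1) p.2} := by
      refine IsClosed.inter (isClosed_good h1 h n β) ?_
      exact (isClosed_good h1 h n β).preimage (f := fun p : (J → Bool) × (Fin (n + 1) → X) =>
        (fl β p.1, p.2)) (((continuous_fl β).comp continuous_fst).prodMk continuous_snd)
    obtain ⟨L, hLM, hp, c, hc, hinv⟩ := inv_select hT i hi (n + 1) hM (hn β)
    exact ⟨L, fun p hp => hLM hp, hp, c, hc, hinv⟩
  choose L hL hLp c hc hinv using key
  set d0 : J → Bool := fun _ => false with hd0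
  choose F hF using fun β => hLp β d0
  have hδ : (0 : ℝ) < 1 / (n + 1 : ℝ) := by positivity
  -- coincidences
  have hco : ∀ β γ, β ≠ γ → γ ∉ c β → ∃ x ∈ Finset.univ.image (F β), x ∈ Finset.univ.image (F γ) ∧
      2 * (1 / (n + 1 : ℝ)) ≤ |(h β).1 x - (h γ).1 x| := by
    intro β γ hβγ hγ
    by_contra hcon
    push Not at hcon
    obtain ⟨f, hfv⟩ := interp (Finset.univ.image (F β) ∪ Finset.univ.image (F γ)) fun x =>
      if x ∈ Finset.univ.image (F β) then
        (if x ∈ Finset.univ.image (F γ) then ((h β).1 x + (h γ).1 x) / 2 else (h β).1 x)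
      else (h γ).1 x
    have g1 : Good Φ h n β (fl γ d0) (F β) := (hL β _ (hinv β γ hγ d0 (F β) (hF β))).1
    have g2 : Good Φ h n γ (fl γ d0) (F γ) := (hL γ _ (hF γ)).2
    have e1 := g1 f (by
      intro k
      have hk : F β k ∈ Finset.univ.image (F β) := Finset.mem_image_of_mem _ (Finset.mem_univ _)
      rw [hfv _ (Finset.mem_union_left _ hk), if_pos hk]
      by_cases hk2 : F β k ∈ Finset.univ.image (F γ)
      · rw [if_pos hk2]
        have := hcon _ hk hk2
        rw [abs_lt] at this ⊢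
        constructor <;> linarith [this.1, this.2]
      · rw [if_neg hk2, sub_self, abs_zero]
        exact hδ)
    have e2 := g2 f (by
      intro k
      have hk : F γ k ∈ Finset.univ.image (F γ) := Finset.mem_image_of_mem _ (Finset.mem_univ _)
      rw [hfv _ (Finset.mem_union_right _ hk), if_pos hk]
      by_cases hk2 : F γ k ∈ Finset.univ.image (F β)
      · rw [if_pos hk2]
        have := hcon _ hk2 hk
        rw [abs_lt] at this ⊢
        constructor <;> linarith [this.1, this.2]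
      · rw [if_neg hk2, sub_self, abs_zero]
        exact hδ)
    have e3 : Φ (fl γ d0) (h β) ≤ 0 := hf _ _ (by rw [fl_ne hβγ])
    have e4 : 1 ≤ Φ (fl γ d0) (h γ) := ht _ _ (by rw [fl_self, hd0]; rfl)
    rw [abs_le] at e1 e2
    linarith [e1.1, e1.2, e2.1, e2.2]
  -- Delta system
  have hU : ¬ (univ : Set J).Countable := Set.not_countable_univ_iff.2 inferInstance
  obtain ⟨S, R, -, hS, hR, hdis⟩ := delta_system (fun β => Finset.univ.image (F β)) univ hU
  obtain ⟨r, hr⟩ := uncountable_fiber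
    (fun β => fun x : R => ⌊(h β).1 x * (n + 1 : ℝ)⌋) S hS
  obtain ⟨β, hβ⟩ : {i ∈ S | (fun x : R => ⌊(h i).1 x * (n + 1 : ℝ)⌋) = r}.Nonempty := by
    by_contra hne
    rw [not_nonempty_iff_eq_empty] at hne
    rw [hne] at hr
    exact hr countable_empty
  obtain ⟨γ, hγ, hγc⟩ : ∃ γ ∈ {i ∈ S | (fun x : R => ⌊(h i).1 x * (n + 1 : ℝ)⌋) = r},
      γ ∉ insert β (c β) := by
    by_contra hcon
    push Not at hcon
    exact hr (((hc β).insert β).mono hcon)
  have hne : β ≠ γ := fun h => hγc (by rw [h]; exact mem_insert _ _)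
  obtain ⟨x, hxβ, hxγ, hx⟩ := hco β γ hne fun h => hγc (mem_insert_of_mem _ h)
  have hxR := hdis β hβ.1 γ hγ.1 hne x hxβ hxγ
  have h3 : ⌊(h β).1 x * (n + 1 : ℝ)⌋ = ⌊(h γ).1 x * (n + 1 : ℝ)⌋ := by
    have e1 := congrFun hβ.2 ⟨x, hxR⟩
    have e2 := congrFun hγ.2 ⟨x, hxR⟩
    simp only at e1 e2
    rw [e1, e2]
  have h4 : |(h β).1 x * (n + 1 : ℝ) - (h γ).1 x * (n + 1 : ℝ)| < 1 :=
    Int.abs_sub_lt_one_of_floor_eq_floor h3
  rw [← sub_mul, abs_mul, abs_of_pos (by positivity : (0 : ℝ) < n + 1)] at h4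
  have h5 : |(h β).1 x - (h γ).1 x| < 1 / (n + 1 : ℝ) := by
    rw [lt_div_iff₀ (by positivity)]
    exact h4
  linarith

theorem good_of_finset {X J : Type*} [TopologicalSpace X] [Nonempty X]
    {Φ : (J → Bool) → Cp X → ℝ} (h2 : ∀ d, Continuous (Φ d)) (h : J → Cp X) (β : J)
    (d d' : J → Bool) :
    ∃ n, ∃ F : Fin (n + 1) → X, Good Φ h n β d F ∧ Good Φ h n β d' F := by
  classical
  obtain ⟨G, δ, hδ, hG⟩ := cp_nhds (h2 d) (h β) (by norm_num : (0 : ℝ) < 1 / 3)
  obtain ⟨G', δ', hδ', hG'⟩ := cp_nhds (h2 d') (h β) (by norm_num : (0 : ℝ) < 1 / 3)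
  obtain ⟨m, hm⟩ := exists_nat_one_div_lt (lt_min hδ hδ')
  set n := max m (G ∪ G').card with hn
  have hle : 1 / ((n : ℝ) + 1) ≤ 1 / ((m : ℝ) + 1) := by
    apply one_div_le_one_div_of_le (by positivity)
    have : (m : ℝ) ≤ n := by exact_mod_cast le_max_left _ _
    linarith
  obtain ⟨F, hF⟩ : ∃ F : Fin (n + 1) → X, ∀ x ∈ G ∪ G', ∃ k, F k = x := by
    refine ⟨fun k => if hk : (k : ℕ) < (G ∪ G').card then
      ((G ∪ G').equivFin.symm ⟨k, hk⟩ : X) else Classical.arbitrary X, fun x hx => ?_⟩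
    have h3 : ((G ∪ G').equivFin ⟨x, hx⟩ : ℕ) < n + 1 :=
      (((G ∪ G').equivFin ⟨x, hx⟩).2.trans_le (le_max_right _ _)).trans (Nat.lt_succ_self _)
    refine ⟨⟨_, h3⟩, ?_⟩
    simp
  refine ⟨n, F, ?_, ?_⟩
  · intro f hf
    refine (hG f fun x hx => ?_).le
    obtain ⟨k, rfl⟩ := hF x (Finset.mem_union_left _ hx)
    exact ((hf k).trans_le hle).trans (hm.trans_le (min_le_left _ _))
  · intro f hf
    refine (hG' f fun x hx => ?_).le
    obtain ⟨k, rfl⟩ := hF x (Finset.mem_union_right _ hx)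
    exact ((hf k).trans_le hle).trans (hm.trans_le (min_le_right _ _))

open Classical in
/-- extension of a function on `S` by `t` -/
noncomputable def ext {J : Type*} (S : Set J) (t : J → Bool) (e : S → Bool) : J → Bool :=
  fun j => if hj : j ∈ S then e ⟨j, hj⟩ else t j

theorem continuous_ext {J : Type*} (S : Set J) (t : J → Bool) : Continuous (ext S t) := by
  apply continuous_pi
  intro j
  by_cases hj : j ∈ S
  · simp only [ext, hj, dif_pos]
    exact continuous_apply _
  · simp only [ext, hj, dif_neg, not_false_eq_true]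
    exact continuous_const

theorem ext_mem {J : Type*} {S : Set J} {t : J → Bool} {e : S → Bool} {j : J} (hj : j ∈ S) :
    ext S t e j = e ⟨j, hj⟩ := by simp [ext, hj]

theorem ext_not_mem {J : Type*} {S : Set J} {t : J → Bool} {e : S → Bool} {j : J} (hj : j ∉ S) :
    ext S t e j = t j := by simp [ext, hj]

theorem ext_fl {J : Type*} {S : Set J} {t : J → Bool} {e : S → Bool} (β : S) :
    ext S t (fl β e) = fl (β : J) (ext S t e) := by
  funext j
  by_cases hj : j ∈ S
  · rw [ext_mem hj]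
    by_cases hjβ : (⟨j, hj⟩ : S) = β
    · subst hjβ
      rw [fl_self, fl_self, ext_mem hj]
    · have : j ≠ (β : J) := fun h => hjβ (Subtype.ext h)
      rw [fl_ne hjβ, fl_ne this, ext_mem hj]
  · have : j ≠ (β : J) := fun h => hj (h ▸ β.2)
    rw [ext_not_mem hj, fl_ne this, ext_not_mem hj]

theorem core_inj {X : Type*} [TopologicalSpace X] [CompactSpace X] [T2Space X]
    (hT : ∀ B : Set X, IsClosed B → (∃ Q : Set X, Q.Countable ∧ Q ⊆ B ∧ B ⊆ closure Q) → OT B)
    {J : Type*} [Uncountable J] (i : J → ℕ → Bool) (hi : Function.Injective i)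
    (Φ : (J → Bool) → Cp X → ℝ) (h1 : ∀ f, Continuous fun d => Φ d f)
    (h2 : ∀ d, Continuous (Φ d)) (h : J → Cp X)
    (hf : ∀ d β, d β = false → Φ d (h β) ≤ 0) (ht : ∀ d β, d β = true → 1 ≤ Φ d (h β)) : False := by
  classical
  rcases isEmpty_or_nonempty X with hX | hX
  · have hinf : Infinite J := inferInstance
    obtain ⟨β⟩ : Nonempty J := inferInstance
    obtain ⟨γ, hγ⟩ := exists_ne β
    have e1 := hf (fl γ fun _ => false) β (by rw [fl_ne hγ.symm])
    have e2 := ht (fl γ fun _ => false) γ (by rw [fl_self]; rfl)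
    have e3 : h β = h γ := Subtype.ext (funext fun x => (hX.false x).elim)
    rw [e3] at e1
    linarith
  have key : ∀ β : J, ∃ (n : ℕ) (G : Finset J) (s : J → Bool), ∀ d : J → Bool,
      (∀ j ∈ G, j ≠ β → d j = s j) → ∃ F, Good Φ h n β d F ∧ Good Φ h n β (fl β d) F := by
    intro β
    set P : ℕ → Set (J → Bool) := fun n => Prod.fst '' {p : (J → Bool) × (Fin (n + 1) → X) |
        Good Φ h n β p.1 p.2 ∧ Good Φ h n β (fl β p.1) p.2} with hP
    have hPc : ∀ n, IsClosed (P n) := by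
      intro n
      apply isClosedMap_fst_of_compactSpace
      refine IsClosed.inter (isClosed_good h1 h n β) ?_
      exact (isClosed_good h1 h n β).preimage (f := fun p : (J → Bool) × (Fin (n + 1) → X) =>
        (fl β p.1, p.2)) (((continuous_fl β).comp continuous_fst).prodMk continuous_snd)
    have hPu : ⋃ n, P n = univ := by
      rw [eq_univ_iff_forall]
      intro d
      obtain ⟨n, F, hF⟩ := good_of_finset h2 h β d (fl β d)
      exact mem_iUnion.2 ⟨n, (d, F), hF, rfl⟩
    obtain ⟨n, d, hd⟩ := nonempty_interior_of_iUnion_of_closed hPc hPu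
    obtain ⟨G, hG⟩ := exists_cyl isOpen_interior hd
    refine ⟨n, G, d, fun d' hd' => ?_⟩
    by_cases hβ : d' β = d β
    · obtain ⟨⟨a, F⟩, hF, rfl⟩ := interior_subset (hG d' fun j hj => by
        by_cases hjβ : j = β
        · rw [hjβ, hβ]
        · exact hd' j hj hjβ)
      exact ⟨F, hF⟩
    · obtain ⟨⟨a, F⟩, hF, ha⟩ := interior_subset (hG (fl β d') fun j hj => by
        by_cases hjβ : j = β
        · rw [hjβ, fl_self]
          cases h3 : d' β <;> cases h4 : d β <;> simp_all
        · rw [fl_ne hjβ]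
          exact hd' j hj hjβ)
      simp only at ha
      subst ha
      refine ⟨F, ?_, hF.1⟩
      have := hF.2
      simp only at this
      rwa [fl_fl] at this
  choose n G s hs using key
  have hU : ¬ (univ : Set J).Countable := Set.not_countable_univ_iff.2 inferInstance
  obtain ⟨m, hm⟩ := uncountable_fiber n univ hU
  obtain ⟨S, hSm, hS, t, hSt⟩ := amalg _ hm G s
  have : Uncountable S := by
    rw [← not_countable_iff]
    exact fun h => hS (Set.countable_coe_iff.1 h)
  refine core_uniform hT (fun β : S => i β) (fun a b hab => Subtype.ext (hi hab))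
    (fun e f => Φ (ext S t e) f) (fun f => (h1 f).comp (continuous_ext S t))
    (fun β => h β) ?_ ?_ m ?_
  · intro e β he
    exact hf _ _ (by rw [ext_mem β.2]; exact he)
  · intro e β he
    exact ht _ _ (by rw [ext_mem β.2]; exact he)
  · intro β e
    have h3 : n β = m := (hSm β.2).2
    obtain ⟨F, hF1, hF2⟩ := hs β (ext S t e) (by
      intro j hj hjβ
      obtain ⟨h4, h5⟩ := hSt β β.2 j hj hjβ
      rw [ext_not_mem h4, h5])
    rw [← ext_fl] at hF2
    subst h3
    exact ⟨F, hF1, hF2⟩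

/-- The main combinatorial theorem: an uncountable Cantor cube cannot be mapped into
`C_p(C_p(X))` by a map which is independent on functions `h β`. -/
theorem core {X : Type*} [TopologicalSpace X] [CompactSpace X] [T2Space X]
    (hT : ∀ B : Set X, IsClosed B → (∃ Q : Set X, Q.Countable ∧ Q ⊆ B ∧ B ⊆ closure Q) → OT B)
    {J : Type*} [Uncountable J] (Φ : (J → Bool) → Cp X → ℝ) (h1 : ∀ f, Continuous fun d => Φ d f)
    (h2 : ∀ d, Continuous (Φ d)) (h : J → Cp X)
    (hf : ∀ d β, d β = false → Φ d (h β) ≤ 0) (ht : ∀ d β, d β = true → 1 ≤ Φ d (h β)) : False := by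
  have h3 : Cardinal.aleph 1 ≤ Cardinal.mk (univ : Set J) := by
    rw [Cardinal.mk_univ, Cardinal.aleph_one_le_iff]
    exact Cardinal.aleph0_lt_mk_iff.2 inferInstance
  obtain ⟨S, -, hS⟩ := Cardinal.le_mk_iff_exists_subset.1 h3
  have : Uncountable S := by
    rw [← Cardinal.aleph0_lt_mk_iff, hS]
    exact Cardinal.aleph0_lt_aleph_one
  have h4 : Cardinal.lift.{0} (Cardinal.mk S) ≤ Cardinal.lift (Cardinal.mk (ℕ → Bool)) := by
    rw [hS]
    simpa using Cardinal.aleph_one_le_continuum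
  obtain ⟨i⟩ := Cardinal.lift_mk_le'.1 h4
  refine core_inj hT i i.injective (fun e f => Φ (ext S (fun _ => false) e) f)
    (fun f => (h1 f).comp (continuous_ext S _)) (fun e => h2 _) (fun β => h β) ?_ ?_
  · intro e β he
    exact hf _ _ (by rw [ext_mem β.2]; exact he)
  · intro e β he
    exact ht _ _ (by rw [ext_mem β.2]; exact he)

end Pool.Agent.H69R3
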