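import Mathlib
import Pool.Agent.H69R3.Ctl
import Pool.Agent.H69R3.Main

set_option autoImplicit false

open Set Topology Filter

universe u v

namespace Pool.Agent.H69R3

open Pool.Agent.Helper126 (delta_system uncountable_fiber)

/-- A continuous map from a Cantor cube to a space which contains no uncountable Cantor cube depends
on countably many coordinates. -/
theorem countable_support {X : Type u} [TopologicalSpace X] [T2Space X]
    (hN : ∀ (S : Type v) [Uncountable S] (g : (S → Bool) → X), Continuous g →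
      ¬ Function.Injective g) {J : Type v} (g : (J → Bool) → X) (hg : Continuous g) :
    {β : J | ∃ d, g (fl β d) ≠ g d}.Countable := by
  classical
  by_contra hS
  have key : ∀ β ∈ {β : J | ∃ d, g (fl β d) ≠ g d}, ∃ (G : Finset J) (s : J → Bool),
      ∀ d d' : J → Bool, (∀ j ∈ G, j ≠ β → d j = s j) → (∀ j ∈ G, j ≠ β → d' j = s j) →
        d β ≠ d' β → g d ≠ g d' := by
    rintro β ⟨d0, hd0⟩
    obtain ⟨U, W, hU, hW, hxU, hxW, hUW⟩ := t2_separation hd0
    obtain ⟨G1, hG1⟩ := exists_cyl (hU.preimage hg) (show fl β d0 ∈ g ⁻¹' U from hxU)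
    obtain ⟨G2, hG2⟩ := exists_cyl (hW.preimage hg) (show d0 ∈ g ⁻¹' W from hxW)
    have e1 : ∀ d : J → Bool, (∀ j ∈ G1 ∪ G2, j ≠ β → d j = d0 j) → d β ≠ d0 β → g d ∈ U := by
      intro d hd hdβ
      apply hG1
      intro j hj
      by_cases hjβ : j = β
      · subst hjβ
        rw [fl_self]
        cases h3 : d j <;> cases h4 : d0 j <;> simp_all
      · rw [fl_ne hjβ]
        exact hd j (Finset.mem_union_left _ hj) hjβ
    have e2 : ∀ d : J → Bool, (∀ j ∈ G1 ∪ G2, j ≠ β → d j = d0 j) → d β = d0 β → g d ∈ W := by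
      intro d hd hdβ
      apply hG2
      intro j hj
      by_cases hjβ : j = β
      · rw [hjβ, hdβ]
      · exact hd j (Finset.mem_union_right _ hj) hjβ
    refine ⟨G1 ∪ G2, d0, fun d d' hd hd' hne heq => ?_⟩
    by_cases h3 : d β = d0 β
    · have h4 : d' β ≠ d0 β := fun h => hne (h3.trans h.symm)
      exact disjoint_left.1 hUW (e1 d' hd' h4) (heq ▸ e2 d hd h3)
    · have h4 : d' β = d0 β := by
        cases h5 : d β <;> cases h6 : d' β <;> cases h7 : d0 β <;> simp_all
      exact disjoint_left.1 hUW (e1 d hd h3) (heq ▸ e2 d' hd' h4)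
  choose! G s hGs using key
  obtain ⟨S', hS'S, hS', t, ht⟩ := amalg _ hS G s
  have : Uncountable S' := by
    rw [← not_countable_iff]
    exact fun h => hS' (Set.countable_coe_iff.1 h)
  refine hN S' (fun e => g (ext S' t e)) (hg.comp (continuous_ext S' t)) ?_
  intro e e' hee
  funext β
  by_contra hne
  refine hGs β (hS'S β.2) (ext S' t e) (ext S' t e') ?_ ?_ ?_ hee
  · intro j hj hjβ
    obtain ⟨h4, h5⟩ := ht β β.2 j hj hjβ
    rw [ext_not_mem h4, h5]
  · intro j hj hjβ
    obtain ⟨h4, h5⟩ := ht β β.2 j hj hjβ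
    rw [ext_not_mem h4, h5]
  · rw [ext_mem β.2, ext_mem β.2]
    exact hne

theorem continuous_piecewise_cube {J : Type*} [DecidableEq J] (G : Finset J) (s : J → Bool) :
    Continuous fun d : J → Bool => G.piecewise s d := by
  apply continuous_pi
  intro j
  by_cases hj : j ∈ G
  · simp only [Finset.piecewise_eq_of_mem _ _ _ hj]
    exact continuous_const
  · simp only [Finset.piecewise_eq_of_notMem _ _ _ hj]
    exact continuous_apply j

/-- The main combinatorial theorem, second version: if the compact space `X` contains no uncountable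
Cantor cube, then an uncountable Cantor cube cannot be mapped into `C_p(C_p(X))` by a map which is
independent on functions `h β`. -/
theorem core2 {X : Type u} [TopologicalSpace X] [CompactSpace X] [T2Space X]
    (hN : ∀ (S : Type v) [Uncountable S] (g : (S → Bool) → X), Continuous g →
      ¬ Function.Injective g)
    {J : Type v} [Uncountable J] (Φ : (J → Bool) → Cp X → ℝ) (h1 : ∀ f, Continuous fun d => Φ d f)
    (h2 : ∀ d, Continuous (Φ d)) (h : J → Cp X)
    (hf : ∀ d β, d β = false → Φ d (h β) ≤ 0) (ht : ∀ d β, d β = true → 1 ≤ Φ d (h β)) : False := by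
  classical
  rcases isEmpty_or_nonempty X with hX | hX
  · have hinf : Infinite J := inferInstance
    obtain ⟨β⟩ : Nonempty J := inferInstance
    obtain ⟨γ, hγ⟩ := exists_ne β
    have e1 := hf (fl γ fun _ => false) β (by rw [fl_ne hγ.symm])
    have e2 := ht (fl γ fun _ => false) γ (by rw [fl_self]; rfl)
    have e3 : h β = h γ := Subtype.ext (funext fun x => (hX.false x).elim)
    rw [e3] at e1
    linarith
  have key : ∀ β : J, ∃ (n : ℕ) (G : Finset J) (s : J → Bool) (E : (J → Bool) → Finset X)
      (c : Set J), c.Countable ∧ (∀ γ ∉ c, ∀ d, E (fl γ d) = E d) ∧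
      ∀ d : J → Bool, (∀ j ∈ G, j ≠ β → d j = s j) → ∀ f : Cp X,
        (∀ x ∈ E d, |f.1 x - (h β).1 x| < 1 / (n + 1 : ℝ)) →
        |Φ d f - Φ d (h β)| ≤ 1 / 3 ∧ |Φ (fl β d) f - Φ (fl β d) (h β)| ≤ 1 / 3 := by
    intro β
    obtain ⟨V, hVo, hVn, δ, hδ, k, F, hFc, hF⟩ := local_cont (D := J → Bool) (X := X)
      (Θ := fun d f => max |Φ d f - Φ d (h β)| |Φ (fl β d) f - Φ (fl β d) (h β)|)
      (fun f => (((h1 f).sub (h1 (h β))).abs).max
        ((((h1 f).comp (continuous_fl β)).sub ((h1 (h β)).comp (continuous_fl β))).abs))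
      (fun d => (((h2 d).sub continuous_const).abs).max
        (((h2 (fl β d)).sub continuous_const).abs)) (h β) (by norm_num : (0 : ℝ) < 1 / 3)
    obtain ⟨s, hs⟩ := hVn
    obtain ⟨G, hG⟩ := exists_cyl hVo hs
    obtain ⟨n, hn⟩ := exists_nat_one_div_lt hδ
    have hr : Continuous fun d : J → Bool => G.piecewise s d := continuous_piecewise_cube G s
    have hrV : ∀ d : J → Bool, G.piecewise s d ∈ V := fun d =>
      hG _ fun j hj => Finset.piecewise_eq_of_mem _ _ _ hj
    have hgc : Continuous fun d : J → Bool => F (G.piecewise s d) := by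
      rw [← continuousOn_univ]
      exact hFc.comp hr.continuousOn fun d _ => hrV d
    refine ⟨n, G, s, fun d => Finset.univ.image (F (G.piecewise s d)),
      ⋃ a : Fin k, {γ : J | ∃ d, F (G.piecewise s (fl γ d)) a ≠ F (G.piecewise s d) a}, ?_, ?_, ?_⟩
    · exact countable_iUnion fun a => countable_support hN (fun d => F (G.piecewise s d) a)
        ((continuous_apply a).comp hgc)
    · intro γ hγ d
      have : F (G.piecewise s (fl γ d)) = F (G.piecewise s d) := by
        funext a
        by_contra hne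
        exact hγ (mem_iUnion.2 ⟨a, d, hne⟩)
      simp only [this]
    · intro d hd f hfd
      have e1 := hF _ (hrV d) f (by
        intro a
        exact (hfd _ (Finset.mem_image_of_mem _ (Finset.mem_univ a))).trans hn)
      simp only [sub_self, abs_zero, max_self, sub_zero] at e1
      rw [abs_of_nonneg (le_max_of_le_left (abs_nonneg _))] at e1
      obtain ⟨e2, e3⟩ := max_le_iff.1 e1
      by_cases hβ : G.piecewise s d = d
      · rw [hβ] at e2 e3
        exact ⟨e2, e3⟩
      · have hβ2 : G.piecewise s d = fl β d := by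
          funext j
          by_cases hjβ : j = β
          · subst hjβ
            rw [fl_self]
            have hjG : j ∈ G := by
              by_contra hjG
              apply hβ
              funext j'
              by_cases hj' : j' ∈ G
              · rw [Finset.piecewise_eq_of_mem _ _ _ hj', hd j' hj']
                rintro rfl
                exact hjG hj'
              · rw [Finset.piecewise_eq_of_notMem _ _ _ hj']
            rw [Finset.piecewise_eq_of_mem _ _ _ hjG]
            have hne : s j ≠ d j := by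
              intro heq
              apply hβ
              funext j'
              by_cases hj' : j' ∈ G
              · rw [Finset.piecewise_eq_of_mem _ _ _ hj']
                by_cases hjj : j' = j
                · rw [hjj, heq]
                · rw [hd j' hj' hjj]
              · rw [Finset.piecewise_eq_of_notMem _ _ _ hj']
            cases h3 : s j <;> cases h4 : d j <;> simp_all
          · rw [fl_ne hjβ]
            by_cases hj' : j ∈ G
            · rw [Finset.piecewise_eq_of_mem _ _ _ hj', hd j hj' hjβ]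
            · rw [Finset.piecewise_eq_of_notMem _ _ _ hj']
        rw [hβ2] at e2 e3
        rw [fl_fl] at e3
        exact ⟨e3, e2⟩
  choose n G s E c hc hE hctl using key
  have hU : ¬ (univ : Set J).Countable := Set.not_countable_univ_iff.2 inferInstance
  obtain ⟨m, hm⟩ := uncountable_fiber n univ hU
  obtain ⟨S, hSm, hS, t, hSt⟩ := amalg _ hm G s
  have hnS : ∀ β ∈ S, n β = m := fun β hβ => (hSm hβ).2
  have hδ : (0 : ℝ) < 1 / (m + 1 : ℝ) := by positivity
  set d0 : J → Bool := fun j => if j ∈ S then false else t j with hd0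
  -- coincidences
  have hco : ∀ β ∈ S, ∀ γ ∈ S, β ≠ γ → γ ∉ c β → ∃ x ∈ E β d0, x ∈ E γ d0 ∧
      2 * (1 / (m + 1 : ℝ)) ≤ |(h β).1 x - (h γ).1 x| := by
    intro β hβ γ hγ hβγ hγc
    by_contra hcon
    push Not at hcon
    obtain ⟨f, hfv⟩ := interp (E β d0 ∪ E γ d0) fun x =>
      if x ∈ E β d0 then
        (if x ∈ E γ d0 then ((h β).1 x + (h γ).1 x) / 2 else (h β).1 x)
      else (h γ).1 x
    have g1 := (hctl β (fl γ d0) (by
      intro j hj hjβ
      obtain ⟨h4, h5⟩ := hSt β hβ j hj hjβ
      have h6 : j ≠ γ := fun h => h4 (h ▸ hγ)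
      rw [fl_ne h6, hd0]
      simp only [h4, if_false]
      exact h5) f (by
      rw [hE β γ hγc d0, hnS β hβ]
      intro x hx
      rw [hfv _ (Finset.mem_union_left _ hx), if_pos hx]
      by_cases hx2 : x ∈ E γ d0
      · rw [if_pos hx2]
        have := hcon _ hx hx2
        rw [abs_lt] at this ⊢
        constructor <;> linarith [this.1, this.2]
      · rw [if_neg hx2, sub_self, abs_zero]
        exact hδ)).1
    have g2 := (hctl γ d0 (by
      intro j hj hjβ
      obtain ⟨h4, h5⟩ := hSt γ hγ j hj hjβ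
      rw [hd0]
      simp only [h4, if_false]
      exact h5) f (by
      rw [hnS γ hγ]
      intro x hx
      rw [hfv _ (Finset.mem_union_right _ hx)]
      by_cases hx2 : x ∈ E β d0
      · rw [if_pos hx2, if_pos hx]
        have := hcon _ hx2 hx
        rw [abs_lt] at this ⊢
        constructor <;> linarith [this.1, this.2]
      · rw [if_neg hx2, sub_self, abs_zero]
        exact hδ)).2
    have e3 : Φ (fl γ d0) (h β) ≤ 0 := hf _ _ (by
      rw [fl_ne hβγ, hd0]
      simp only [hβ, if_true])
    have e4 : 1 ≤ Φ (fl γ d0) (h γ) := ht _ _ (by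
      rw [fl_self, hd0]
      simp only [hγ, if_true, Bool.not_false])
    rw [abs_le] at g1 g2
    linarith [g1.1, g1.2, g2.1, g2.2]
  -- Delta system
  obtain ⟨S1, R, hS1S, hS1, hR, hdis⟩ := delta_system (fun β => E β d0) S hS
  obtain ⟨r, hr⟩ := uncountable_fiber
    (fun β => fun x : R => ⌊(h β).1 x * (m + 1 : ℝ)⌋) S1 hS1
  obtain ⟨β, hβ⟩ : {i ∈ S1 | (fun x : R => ⌊(h i).1 x * (m + 1 : ℝ)⌋) = r}.Nonempty := by
    by_contra hne
    rw [not_nonempty_iff_eq_empty] at hne
    rw [hne] at hr
    exact hr countable_empty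
  obtain ⟨γ, hγ, hγc⟩ : ∃ γ ∈ {i ∈ S1 | (fun x : R => ⌊(h i).1 x * (m + 1 : ℝ)⌋) = r},
      γ ∉ insert β (c β) := by
    by_contra hcon
    push Not at hcon
    exact hr (((hc β).insert β).mono hcon)
  have hne : β ≠ γ := fun h => hγc (by rw [h]; exact mem_insert _ _)
  obtain ⟨x, hxβ, hxγ, hx⟩ := hco β (hS1S hβ.1) γ (hS1S hγ.1) hne
    fun h => hγc (mem_insert_of_mem _ h)
  have hxR := hdis β hβ.1 γ hγ.1 hne x hxβ hxγ
  have h3 : ⌊(h β).1 x * (m + 1 : ℝ)⌋ = ⌊(h γ).1 x * (m + 1 : ℝ)⌋ := by
    have e1 := congrFun hβ.2 ⟨x, hxR⟩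
    have e2 := congrFun hγ.2 ⟨x, hxR⟩
    simp only at e1 e2
    rw [e1, e2]
  have h4 : |(h β).1 x * (m + 1 : ℝ) - (h γ).1 x * (m + 1 : ℝ)| < 1 :=
    Int.abs_sub_lt_one_of_floor_eq_floor h3
  rw [← sub_mul, abs_mul, abs_of_pos (by positivity : (0 : ℝ) < m + 1)] at h4
  have h5 : |(h β).1 x - (h γ).1 x| < 1 / (m + 1 : ℝ) := by
    rw [lt_div_iff₀ (by positivity)]
    exact h4
  linarith

end Pool.Agent.H69R3
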