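import Mathlib
import Pool.Agent.H69R3.Main

set_option autoImplicit false

open Set Topology Filter

universe u

namespace Pool.Agent.H69R3

open Pool.Agent.Helper126 (delta_system uncountable_fiber)

/-! ### A space with one point whose neighbourhoods are co-small -/

/-- the points of the space `L`: isolated points and `none` -/
def LL (D : Type u) (κ : Cardinal.{u}) (_ : Cardinal.aleph0 ≤ κ) : Type u := Option D

instance (D : Type u) (κ : Cardinal.{u}) (hκ : Cardinal.aleph0 ≤ κ) :
    TopologicalSpace (LL D κ hκ) where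
  IsOpen U := (none : Option D) ∈ U → Cardinal.mk {d : D | (some d : Option D) ∉ U} ≤ κ
  isOpen_univ := by
    intro _
    have : {d : D | (some d : Option D) ∉ (univ : Set (LL D κ hκ))} = ∅ :=
      eq_empty_iff_forall_notMem.2 fun d h => h (mem_univ _)
    rw [this]
    simp
  isOpen_inter := by
    intro U V hU hV h
    have : {d : D | (some d : Option D) ∉ U ∩ V} ⊆
        {d : D | (some d : Option D) ∉ U} ∪ {d : D | (some d : Option D) ∉ V} := by
      intro d hd
      by_cases h1 : (some d : Option D) ∈ U
      · exact Or.inr fun h2 => hd ⟨h1, h2⟩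
      · exact Or.inl h1
    refine (Cardinal.mk_le_mk_of_subset this).trans ((Cardinal.mk_union_le _ _).trans ?_)
    exact Cardinal.add_le_of_le hκ (hU h.1) (hV h.2)
  isOpen_sUnion := by
    rintro s hs ⟨U, hU, hn⟩
    refine (Cardinal.mk_le_mk_of_subset ?_).trans (hs U hU hn)
    intro d hd h
    exact hd ⟨U, hU, h⟩

theorem LL_isOpen {D : Type u} {κ : Cardinal.{u}} {hκ : Cardinal.aleph0 ≤ κ}
    {U : Set (LL D κ hκ)} : IsOpen U ↔
      ((none : Option D) ∈ U → Cardinal.mk {d : D | (some d : Option D) ∉ U} ≤ κ) := Iff.rfl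

theorem LL_clopen_of_not_mem {D : Type u} {κ : Cardinal.{u}} {hκ : Cardinal.aleph0 ≤ κ}
    {K : Set (LL D κ hκ)} (hK : IsClosed K) (hn : (none : Option D) ∉ K) : IsClopen K :=
  ⟨hK, LL_isOpen.2 fun h => absurd h hn⟩

theorem LL_isClopen_some {D : Type u} {κ : Cardinal.{u}} {hκ : Cardinal.aleph0 ≤ κ} (d : D) :
    IsClopen ({(some d : Option D)} : Set (LL D κ hκ)) := by
  refine LL_clopen_of_not_mem ?_ (by
    intro h
    exact absurd (mem_singleton_iff.1 h) (by simp))
  rw [← isOpen_compl_iff, LL_isOpen]
  intro _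
  have : {d' : D | (some d' : Option D) ∉ ({(some d : Option D)} : Set (LL D κ hκ))ᶜ} ⊆ {d} := by
    intro d' hd'
    exact Option.some.inj (mem_singleton_iff.1 (Classical.not_not.1 hd'))
  refine (Cardinal.mk_le_mk_of_subset this).trans ?_
  rw [Cardinal.mk_singleton]
  exact Cardinal.one_le_aleph0.trans hκ

theorem LL_isClosed_none {D : Type u} {κ : Cardinal.{u}} {hκ : Cardinal.aleph0 ≤ κ} :
    IsClosed ({(none : Option D)} : Set (LL D κ hκ)) := by
  rw [← isOpen_compl_iff, LL_isOpen]
  intro h
  exact absurd rfl h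

theorem LL_crs_aux {D : Type u} {κ : Cardinal.{u}} {hκ : Cardinal.aleph0 ≤ κ}
    {K : Set (LL D κ hκ)} (hK : IsClopen K) {x : LL D κ hκ} (hx : x ∉ K) :
    ∃ f : LL D κ hκ → unitInterval, Continuous f ∧ f x = 0 ∧ EqOn f 1 K := by
  classical
  refine ⟨K.piecewise 1 0, ?_, ?_, ?_⟩
  · apply Continuous.piecewise _ continuous_const continuous_const
    intro a ha
    rw [hK.frontier_eq] at ha
    exact absurd ha (notMem_empty _)
  · rw [Set.piecewise_eq_of_notMem _ _ _ hx]
    rfl
  · intro y hy
    rw [Set.piecewise_eq_of_mem _ _ _ hy]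

instance (D : Type u) (κ : Cardinal.{u}) (hκ : Cardinal.aleph0 ≤ κ) : T1Space (LL D κ hκ) where
  t1 x := by
    cases x with
    | none => exact LL_isClosed_none
    | some d => exact (LL_isClopen_some d).1

instance (D : Type u) (κ : Cardinal.{u}) (hκ : Cardinal.aleph0 ≤ κ) :
    CompletelyRegularSpace (LL D κ hκ) where
  completely_regular := by
    intro x K hK hx
    cases x with
    | none => exact LL_crs_aux (LL_clopen_of_not_mem hK hx) hx
    | some d =>
      obtain ⟨f, h1, h2, h3⟩ := LL_crs_aux (LL_isClopen_some (hκ := hκ) d).compl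
        (x := (some d : Option D)) (fun h => h rfl)
      refine ⟨f, h1, h2, fun y hy => h3 ?_⟩
      intro h
      rw [mem_singleton_iff.1 h] at hy
      exact hx hy

instance (D : Type u) (κ : Cardinal.{u}) (hκ : Cardinal.aleph0 ≤ κ) : T35Space (LL D κ hκ) where

/-! ### t-extral spaces -/

/-- A t-extral space is t-embedded in every compact space which contains it (as a subspace which is
not assumed to be closed). -/
theorem extral_embedding {X : Type u} [TopologicalSpace X] (h : TExtral X)
    {K : Type u} [TopologicalSpace K] [T35Space K] (e : X → K) (he : IsEmbedding e) :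
    ∃ ψ : Cp X → Cp K, Continuous ψ ∧ ∀ f x, (ψ f).1 (e x) = f.1 x := by
  set κ : Cardinal.{u} := max (Cardinal.mk (Cp X × X)) Cardinal.aleph0 with hκdef
  have hκ : Cardinal.aleph0 ≤ κ := le_max_right _ _
  obtain ⟨D, hD⟩ : ∃ D : Type u, κ < Cardinal.mk D := by
    obtain ⟨T, hT⟩ : ∃ T : Type u, Cardinal.mk T = κ := ⟨κ.out, Cardinal.mk_out κ⟩
    refine ⟨Set T, ?_⟩
    rw [Cardinal.mk_set, hT]
    exact Cardinal.cantor κ
  let L := LL D κ hκ
  let inf : L := (none : Option D)
  let Y := {p : K × L // p.2 = inf → p.1 ∈ range e}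
  let A : Set Y := {y | y.1.2 = inf}
  have hA : IsClosed A := by
    have h1 : IsClosed ({inf} : Set L) := LL_isClosed_none
    exact h1.preimage (continuous_snd.comp continuous_subtype_val)
  let g : X → Y := fun x => ⟨(e x, inf), fun _ => ⟨x, rfl⟩⟩
  have hg : Continuous g := Continuous.subtype_mk (he.continuous.prodMk continuous_const) _
  have hge : IsEmbedding g := by
    refine IsEmbedding.of_comp hg (continuous_fst.comp continuous_subtype_val) ?_
    exact he
  have hgA : range g = A := by
    ext y
    constructor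
    · rintro ⟨x, rfl⟩
      rfl
    · intro hy
      obtain ⟨x, hx⟩ := y.2 hy
      refine ⟨x, Subtype.ext (Prod.ext hx ?_)⟩
      exact (hy : y.1.2 = inf).symm
  let H : X ≃ₜ A := hge.toHomeomorph.trans (Homeomorph.setCongr hgA)
  have hH : ∀ x, ((H x : Y)) = g x := fun x => rfl
  obtain ⟨φ, hφ, hφe⟩ := h Y A hA ⟨H⟩
  let φ' : Cp X → Cp Y := fun f => φ ⟨f.1 ∘ H.symm, f.2.comp H.symm.continuous⟩
  have hφ' : Continuous φ' := by
    refine hφ.comp ?_
    refine Continuous.subtype_mk ?_ _
    refine continuous_pi fun a => ?_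
    exact (continuous_apply (H.symm a)).comp continuous_subtype_val
  have hφe' : ∀ f x, (φ' f).1 (g x) = f.1 x := by
    intro f x
    have := hφe ⟨f.1 ∘ H.symm, f.2.comp H.symm.continuous⟩ (H x)
    rw [hH] at this
    rw [this]
    simp
  -- the small sets
  have hsmall : ∀ p : Cp X × X,
      Cardinal.mk {d : D | (φ' p.1).1 ⟨(e p.2, (some d : Option D)), fun _ => ⟨p.2, rfl⟩⟩
        ≠ p.1.1 p.2} ≤ κ := by
    rintro ⟨f, x⟩
    have h1 : Continuous fun l : L => (φ' f).1 ⟨(e x, l), fun _ => ⟨x, rfl⟩⟩ :=
      (φ' f).2.comp (Continuous.subtype_mk (continuous_const.prodMk continuous_id) _)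
    have h2 : {d : D | (φ' f).1 ⟨(e x, (some d : Option D)), fun _ => ⟨x, rfl⟩⟩ ≠ f.1 x} ⊆
        ⋃ n : ULift.{u} ℕ, {d : D | (some d : Option D) ∉ (fun l : L => (φ' f).1 ⟨(e x, l), fun _ =>
          ⟨x, rfl⟩⟩) ⁻¹' (Metric.ball (f.1 x) (1 / (n.down + 1 : ℝ)))} := by
      intro d hd
      have h3 : 0 < |(φ' f).1 ⟨(e x, (some d : Option D)), fun _ => ⟨x, rfl⟩⟩ - f.1 x| :=
        abs_pos.2 (sub_ne_zero.2 hd)
      obtain ⟨n, hn⟩ := exists_nat_one_div_lt h3
      refine mem_iUnion.2 ⟨⟨n⟩, fun h4 => ?_⟩
      have h5 := Metric.mem_ball.1 h4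
      rw [Real.dist_eq] at h5
      linarith
    refine (Cardinal.mk_le_mk_of_subset h2).trans ((Cardinal.mk_iUnion_le_sum_mk).trans ?_)
    refine (Cardinal.sum_le_sum _ (fun _ => κ) fun n => ?_).trans ?_
    · have h6 := Metric.isOpen_ball.preimage h1 (t := Metric.ball (f.1 x) (1 / (n.down + 1 : ℝ)))
      refine LL_isOpen.1 h6 ?_
      show (φ' f).1 (g x) ∈ Metric.ball (f.1 x) (1 / (n.down + 1 : ℝ))
      rw [hφe' f x]
      exact Metric.mem_ball_self (by positivity)
    · rw [Cardinal.sum_const]
      simp only [Cardinal.mk_eq_aleph0, Cardinal.lift_id]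
      exact (Cardinal.aleph0_mul_eq hκ).le
  have hU : Cardinal.mk (⋃ p : Cp X × X, {d : D | (φ' p.1).1 ⟨(e p.2, (some d : Option D)),
      fun _ => ⟨p.2, rfl⟩⟩ ≠ p.1.1 p.2} : Set D) ≤ κ := by
    refine (Cardinal.mk_iUnion_le_sum_mk).trans
      ((Cardinal.sum_le_sum _ (fun _ => κ) fun p => hsmall p).trans ?_)
    rw [Cardinal.sum_const]
    simp only [Cardinal.lift_id]
    exact Cardinal.mul_le_of_le hκ (le_max_left _ _) le_rfl
  obtain ⟨d, hd⟩ : ∃ d : D, d ∉ (⋃ p : Cp X × X, {d : D | (φ' p.1).1 ⟨(e p.2,
      (some d : Option D)), fun _ => ⟨p.2, rfl⟩⟩ ≠ p.1.1 p.2} : Set D) := by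
    by_contra hcon
    push Not at hcon
    rw [← eq_univ_iff_forall] at hcon
    rw [hcon, Cardinal.mk_univ] at hU
    exact absurd hU (not_le.2 hD)
  have hdn : (some d : Option D) ≠ none := by simp
  let j : K → Y := fun k => ⟨(k, (some d : Option D)), fun hh => absurd hh hdn⟩
  have hj : Continuous j := Continuous.subtype_mk (continuous_id.prodMk continuous_const) _
  refine ⟨fun f => ⟨fun k => (φ' f).1 (j k), (φ' f).2.comp hj⟩, ?_, ?_⟩
  · refine Continuous.subtype_mk ?_ _
    refine continuous_pi fun k => ?_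
    exact (continuous_apply (j k)).comp (continuous_subtype_val.comp hφ')
  · intro f x
    by_contra hcon
    exact hd (mem_iUnion.2 ⟨(f, x), hcon⟩)

theorem update_eq_fl {J : Type*} [DecidableEq J] (β : J) (d : J → Bool) (b : Bool)
    (h : b = !d β) : Function.update d β b = fl β d := by
  funext j
  by_cases hj : j = β
  · subst hj
    rw [Function.update_self, fl_self, h]
  · rw [Function.update_of_ne hj, fl_ne hj]

/-- if `X` is t-embedded in a compact space then `X` is compact -/
theorem compact_of_extender {X : Type*} [TopologicalSpace X] {K : Type*} [TopologicalSpace K]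
    [CompactSpace K] [T2Space K] (e : X → K) (he : IsEmbedding e)
    (ψ : Cp X → Cp K) (hψ : Continuous ψ) (hψe : ∀ f x, (ψ f).1 (e x) = f.1 x) :
    CompactSpace X := by
  classical
  have hcl : IsClosed (range e) := by
    rw [← closure_subset_iff_isClosed]
    intro p hp
    by_contra hn
    let res : C(K, ℝ) → Cp X := fun g => ⟨g ∘ e, g.continuous.comp he.continuous⟩
    have h1 : ∀ g : C(K, ℝ), (ψ (res g)).1 p = g p := by
      intro g
      have h2 : EqOn (ψ (res g)).1 g (range e) := by
        rintro _ ⟨x, rfl⟩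
        exact hψe (res g) x
      exact h2.closure (ψ (res g)).2 g.continuous hp
    have h3 : Continuous fun f : Cp X => (ψ f).1 p :=
      (continuous_apply p).comp (continuous_subtype_val.comp hψ)
    obtain ⟨G, δ, hδ, hG⟩ := cp_nhds h3 (res 0) one_pos
    have h4 : IsClosed ((G.image e : Finset K) : Set K) := (Finset.finite_toSet _).isClosed
    have h5 : Disjoint ((G.image e : Finset K) : Set K) {p} := by
      rw [disjoint_singleton_right]
      intro h
      obtain ⟨x, -, hx⟩ := Finset.mem_image.1 (Finset.mem_coe.1 h)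
      exact hn ⟨x, hx⟩
    obtain ⟨g, hg0, hg1, -⟩ := exists_continuous_zero_one_of_isClosed h4 isClosed_singleton h5
    have h6 := hG (res g) (by
      intro x hx
      have : g (e x) = 0 := hg0 (Finset.mem_coe.2 (Finset.mem_image_of_mem e hx))
      show |g (e x) - 0| < δ
      rw [this]
      simpa using hδ)
    rw [h1, h1, hg1 rfl] at h6
    simp at h6
  have := isCompact_iff_compactSpace.1 hcl.isCompact
  exact he.toHomeomorph.symm.compactSpace

/-- Let `X` be compact and t-embedded in a cube. If all closed separable subspaces of `X` have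
countable tightness, then `X` is metrizable. -/
theorem metrizable_of_cube {X : Type*} [TopologicalSpace X] [CompactSpace X] [T2Space X]
    (hT : ∀ B : Set X, IsClosed B → (∃ Q : Set X, Q.Countable ∧ Q ⊆ B ∧ B ⊆ closure Q) → OT B)
    {κ : Type*} (e : X → κ → unitInterval) (he : Continuous e)
    (ψ : Cp X → Cp (κ → unitInterval)) (hψ : Continuous ψ)
    (hψe : ∀ f x, (ψ f).1 (e x) = f.1 x) : TopologicalSpace.MetrizableSpace X := by
  classical
  obtain ⟨b, hb, hbs⟩ := exists_nat_bool_continuous_surjective_of_compact unitInterval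
  choose σ hσ using hbs
  let q : (κ × ℕ → Bool) → (κ → unitInterval) := fun d k => b fun n => d (k, n)
  have hq : Continuous q := by
    refine continuous_pi fun k => hb.comp ?_
    exact continuous_pi fun n => continuous_apply _
  let Ψ : (κ × ℕ → Bool) → Cp X → ℝ := fun d f => (ψ f).1 (q d)
  have hΨ1 : ∀ f, Continuous fun d => Ψ d f := fun f => (ψ f).2.comp hq
  have hΨ2 : ∀ d, Continuous (Ψ d) := fun d =>
    (continuous_apply (q d)).comp (continuous_subtype_val.comp hψ)
  set S : Set (κ × ℕ) := {β | ∃ f d, Ψ d f ≠ Ψ (fl β d) f} with hS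
  by_cases hc : S.Countable
  · -- countably many coordinates are enough
    have h1 : ∀ f d d', (∀ β ∈ S, d β = d' β) → Ψ d f = Ψ d' f := by
      intro f d d' hdd
      have h2 : ∀ G : Finset (κ × ℕ), ∀ d1 : κ × ℕ → Bool, (∀ β ∈ S, d1 β = d' β) →
          Ψ (G.piecewise d' d1) f = Ψ d1 f := by
        intro G
        induction G using Finset.induction_on with
        | empty => intro d1 _; rw [Finset.piecewise_empty]
        | insert a G ha ih =>
          intro d1 hd1
          rw [Finset.piecewise_insert]
          have h3 : ∀ d2 : κ × ℕ → Bool, (∀ β ∈ S, d2 β = d' β) →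
              Ψ (Function.update d2 a (d' a)) f = Ψ d2 f := by
            intro d2 hd2
            by_cases h4 : d2 a = d' a
            · rw [← h4, Function.update_eq_self]
            · have h5 : a ∉ S := fun h => h4 (hd2 a h)
              have h6 : Function.update d2 a (d' a) = fl a d2 := by
                apply update_eq_fl
                revert h4
                cases d2 a <;> cases d' a <;> simp
              rw [h6]
              by_contra h7
              exact h5 ⟨f, d2, fun h => h7 h.symm⟩
          rw [h3, ih d1 hd1]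
          intro β hβ
          by_cases hβG : β ∈ G
          · rw [Finset.piecewise_eq_of_mem _ _ _ hβG]
          · rw [Finset.piecewise_eq_of_notMem _ _ _ hβG, hd1 β hβ]
      have h3 : d' ∈ closure {z | Ψ z f = Ψ d f} := by
        rw [mem_closure_iff]
        intro U hU hd'
        obtain ⟨G, hG⟩ := exists_cyl hU hd'
        refine ⟨G.piecewise d' d, hG _ fun j hj => Finset.piecewise_eq_of_mem _ _ _ hj, ?_⟩
        exact h2 G d hdd
      have h4 : IsClosed {z | Ψ z f = Ψ d f} := isClosed_eq (hΨ1 f) continuous_const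
      rw [h4.closure_eq] at h3
      exact h3.symm
    let T : Set κ := Prod.fst '' S
    have hTc : T.Countable := hc.image _
    have : Countable T := hTc.to_subtype
    let r : X → (T → unitInterval) := fun x t => e x t
    have hr : Continuous r := continuous_pi fun t => (continuous_apply (t : κ)).comp he
    have hri : Function.Injective r := by
      intro x x' hxx
      by_contra hne
      obtain ⟨f, hf⟩ := interp {x, x'} fun y => if y = x then 0 else 1
      have h5 : f.1 x = 0 := by rw [hf x (by simp), if_pos rfl]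
      have h6 : f.1 x' = 1 := by rw [hf x' (by simp), if_neg (Ne.symm hne)]
      let dd : X → κ × ℕ → Bool := fun x p => σ (e x p.1) p.2
      have h7 : ∀ x, q (dd x) = e x := by
        intro x
        funext k
        exact hσ (e x k)
      have h8 : Ψ (dd x) f = Ψ (dd x') f := by
        apply h1
        intro β hβ
        have h9 : e x β.1 = e x' β.1 := congrFun hxx ⟨β.1, ⟨β, hβ, rfl⟩⟩
        show σ (e x β.1) β.2 = σ (e x' β.1) β.2
        rw [h9]
      have h10 : ∀ x, Ψ (dd x) f = f.1 x := by
        intro x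
        show (ψ f).1 (q (dd x)) = f.1 x
        rw [h7, hψe]
      rw [h10, h10, h5, h6] at h8
      exact zero_ne_one h8
    exact (hr.isClosedEmbedding hri).isEmbedding.metrizableSpace
  · exfalso
    have h1 : ∀ β ∈ S, ∃ (pq : ℚ × ℚ) (G : Finset (κ × ℕ)) (s : κ × ℕ → Bool) (f : Cp X),
        (∀ d : κ × ℕ → Bool, (∀ j ∈ G, j ≠ β → d j = s j) → d β = false →
          (pq.1 : ℝ) * Ψ d f + pq.2 ≤ 0) ∧
        (∀ d : κ × ℕ → Bool, (∀ j ∈ G, j ≠ β → d j = s j) → d β = true →
          1 ≤ (pq.1 : ℝ) * Ψ d f + pq.2) := by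
      rintro β ⟨f, d0, hd0⟩
      set u := Ψ (Function.update d0 β false) f with hu
      set v := Ψ (Function.update d0 β true) f with hv
      have huv : u ≠ v := by
        cases h2 : d0 β with
        | false =>
          have h3 : Function.update d0 β false = d0 := by rw [← h2, Function.update_eq_self]
          have h4 : Function.update d0 β true = fl β d0 := by
            apply update_eq_fl; rw [h2]; rfl
          rw [hu, hv, h3, h4]
          exact hd0
        | true =>
          have h3 : Function.update d0 β true = d0 := by rw [← h2, Function.update_eq_self]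
          have h4 : Function.update d0 β false = fl β d0 := by
            apply update_eq_fl; rw [h2]; rfl
          rw [hu, hv, h3, h4]
          exact hd0.symm
      obtain ⟨p, hp⟩ : ∃ p : ℚ, 1 < (p : ℝ) * (v - u) := by
        rcases lt_or_gt_of_ne huv with h2 | h2
        · obtain ⟨p, hp⟩ := exists_rat_gt (1 / (v - u))
          refine ⟨p, ?_⟩
          rwa [div_lt_iff₀ (sub_pos.2 h2)] at hp
        · obtain ⟨p, hp⟩ := exists_rat_lt (1 / (v - u))
          refine ⟨p, ?_⟩
          rwa [lt_div_iff_of_neg (sub_neg.2 h2)] at hp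
      obtain ⟨q', hq1, hq2⟩ := exists_rat_btwn (show 1 - (p : ℝ) * v < -((p : ℝ) * u) by linarith)
      have hc1 : Continuous fun d => (p : ℝ) * Ψ d f + q' :=
        ((continuous_const.mul (hΨ1 f)).add continuous_const)
      obtain ⟨G1, hG1⟩ := exists_cyl (isOpen_lt hc1 continuous_const)
        (show Function.update d0 β false ∈ {d | (p : ℝ) * Ψ d f + q' < 0} by
          show (p : ℝ) * u + q' < 0
          linarith)
      obtain ⟨G2, hG2⟩ := exists_cyl (isOpen_lt continuous_const hc1)
        (show Function.update d0 β true ∈ {d | 1 < (p : ℝ) * Ψ d f + q'} by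
          show 1 < (p : ℝ) * v + q'
          linarith)
      refine ⟨(p, q'), G1 ∪ G2, d0, f, ?_, ?_⟩
      · intro d hd hdβ
        refine le_of_lt (hG1 d fun j hj => ?_)
        by_cases hjβ : j = β
        · subst hjβ; rw [hdβ, Function.update_self]
        · rw [Function.update_of_ne hjβ, hd j (Finset.mem_union_left _ hj) hjβ]
      · intro d hd hdβ
        refine le_of_lt (hG2 d fun j hj => ?_)
        by_cases hjβ : j = β
        · subst hjβ; rw [hdβ, Function.update_self]
        · rw [Function.update_of_ne hjβ, hd j (Finset.mem_union_right _ hj) hjβ]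
    have : Nonempty (Cp X) := ⟨⟨fun _ => 0, continuous_const⟩⟩
    choose! pq G s f hneg hpos using h1
    obtain ⟨c, hcf⟩ := uncountable_fiber pq S hc
    obtain ⟨S', hS'S, hS', t, ht⟩ := amalg _ hcf G s
    have : Uncountable S' := by
      rw [← not_countable_iff]
      exact fun h => hS' (Set.countable_coe_iff.1 h)
    refine core hT (J := S') (fun e' f' => (c.1 : ℝ) * Ψ (ext S' t e') f' + c.2) ?_ ?_
      (fun β => f β) ?_ ?_
    · intro f'
      exact (continuous_const.mul ((hΨ1 f').comp (continuous_ext S' t))).add continuous_const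
    · intro e'
      exact (continuous_const.mul (hΨ2 _)).add continuous_const
    · intro d β hd
      have h2 := hneg β (hS'S β.2).1 (ext S' t d) (by
        intro j hj hjβ
        obtain ⟨h4, h5⟩ := ht β β.2 j hj hjβ
        rw [ext_not_mem h4, h5]) (by rw [ext_mem β.2]; exact hd)
      rw [(hS'S β.2).2] at h2
      exact h2
    · intro d β hd
      have h2 := hpos β (hS'S β.2).1 (ext S' t d) (by
        intro j hj hjβ
        obtain ⟨h4, h5⟩ := ht β β.2 j hj hjβ
        rw [ext_not_mem h4, h5]) (by rw [ext_mem β.2]; exact hd)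
      rw [(hS'S β.2).2] at h2
      exact h2

end Pool.Agent.H69R3
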