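import Mathlib
import Pool.Agent.H69R3.Cube

set_option autoImplicit false

open Set Topology Filter

universe u

namespace Pool.Agent.H69R3

open Pool.Agent.Helper126 (delta_system uncountable_fiber)

/-- countable intersections of closed neighbourhoods of a point of the closure of an `ω`-closed
set meet this set -/
theorem pick {Y : Type*} [TopologicalSpace Y] [CompactSpace Y] {A : Set Y} (hA : OC A) {p : Y}
    (hp : p ∈ closure A) {ι : Type*} [Countable ι] (V : ι → Set Y) (hV : ∀ i, V i ∈ 𝓝 p)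
    (hc : ∀ i, IsClosed (V i)) : ∃ a ∈ A, ∀ i, a ∈ V i := by
  classical
  rcases isEmpty_or_nonempty ι with hι | hι
  · obtain ⟨a, ha⟩ : A.Nonempty := by
      rw [← closure_nonempty_iff]
      exact ⟨p, hp⟩
    exact ⟨a, ha, fun i => (hι.false i).elim⟩
  obtain ⟨s, hs⟩ := exists_surjective_nat ι
  have h1 : ∀ n : ℕ, ∃ a ∈ A, ∀ k ≤ n, a ∈ V (s k) := by
    intro n
    have h2 : (⋂ k ∈ Finset.range (n + 1), V (s k)) ∈ 𝓝 p :=
      (Filter.biInter_finset_mem _).2 fun k _ => hV (s k)
    obtain ⟨a, ha1, ha2⟩ := mem_closure_iff_nhds.1 hp _ h2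
    refine ⟨a, ha2, fun k hk => ?_⟩
    exact mem_iInter₂.1 ha1 k (Finset.mem_range.2 (Nat.lt_succ_of_le hk))
  choose a ha haV using h1
  have h3 : (⋂ n : ℕ, closure (a '' Ici n)).Nonempty := by
    apply IsCompact.nonempty_iInter_of_directed_nonempty_isCompact_isClosed
    · intro m n
      refine ⟨max m n, closure_mono (image_mono ?_), closure_mono (image_mono ?_)⟩
      · exact Ici_subset_Ici.2 (le_max_left _ _)
      · exact Ici_subset_Ici.2 (le_max_right _ _)
    · intro n
      exact ⟨a n, subset_closure ⟨n, self_mem_Ici, rfl⟩⟩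
    · intro n
      exact isClosed_closure.isCompact
    · intro n
      exact isClosed_closure
  obtain ⟨b, hb⟩ := h3
  refine ⟨b, ?_, ?_⟩
  · refine hA (a '' Ici 0) ?_ ((to_countable (Ici 0)).image a) (mem_iInter.1 hb 0)
    rintro _ ⟨n, -, rfl⟩
    exact ha n
  · intro i
    obtain ⟨k, rfl⟩ := hs i
    have h4 : closure (a '' Ici k) ⊆ V (s k) := by
      apply closure_minimal _ (hc _)
      rintro _ ⟨n, hn, rfl⟩
      exact haV n k hn
    exact h4 (mem_iInter.1 hb k)

/-- the index set of the free sequence -/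
abbrev Om : Type := (Cardinal.aleph.{0} 1).ord.ToType

theorem mk_Om : Cardinal.mk Om = Cardinal.aleph 1 := Cardinal.mk_ord_toType _

theorem countable_Iio_Om (a : Om) : (Iio a).Countable := by
  have h : Cardinal.mk (Iio a) < Cardinal.mk Om :=
    Cardinal.mk_Iio_lt (α := (Cardinal.aleph 1).ord.ToType) a (by simp)
  rw [mk_Om] at h
  rwa [← Cardinal.le_aleph0_iff_set_countable, ← Order.lt_succ_iff, Cardinal.succ_aleph0]

instance : Uncountable Om := by
  rw [← not_countable_iff, ← Cardinal.mk_le_aleph0_iff, mk_Om, not_le]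
  exact Cardinal.aleph0_lt_aleph_one

/-- If `A` is `ω`-closed but not closed in a compact space, then there is an uncountable set all of
whose points are isolated in its closure. -/
theorem free_sequence {Y : Type*} [TopologicalSpace Y] [CompactSpace Y] [T2Space Y] {A : Set Y}
    (hA : OC A) {p : Y} (hp : p ∈ closure A) (hpA : p ∉ A) :
    ∃ x : Om → Y, Function.Injective x ∧ ∀ ξ, ∃ U, IsOpen U ∧ x ξ ∈ U ∧
      ∀ y ∈ closure (range x), y ∈ U → y = x ξ := by
  classical
  have hv : ∀ C : Set Y, ∃ V : Set Y, C ⊆ A → C.Countable →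
      V ∈ 𝓝 p ∧ IsClosed V ∧ Disjoint V (closure C) := by
    intro C
    by_cases h : C ⊆ A ∧ C.Countable
    · have h1 : p ∉ closure C := fun h2 => hpA (hA C h.1 h.2 h2)
      obtain ⟨V, hV, hVc, hVs⟩ := exists_mem_nhds_isClosed_subset
        (isClosed_closure.isOpen_compl.mem_nhds h1)
      exact ⟨V, fun _ _ => ⟨hV, hVc, disjoint_left.2 fun y hy => hVs hy⟩⟩
    · exact ⟨∅, fun h1 h2 => absurd ⟨h1, h2⟩ h⟩
  choose v hv using hv
  let F : (ξ : Om) → ((η : Om) → η < ξ → Y) → Y := fun ξ g =>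
    if h : ∃ a ∈ A, ∀ η ≤ ξ, a ∈ v {y | ∃ ζ, ∃ hζ : ζ < ξ, ζ < η ∧ g ζ hζ = y} then h.choose else p
  let x : Om → Y := (wellFounded_lt (α := Om)).fix F
  have hx : ∀ ξ, x ξ = F ξ fun ζ _ => x ζ := fun ξ => WellFounded.fix_eq _ _ _
  have hset : ∀ ξ η, η ≤ ξ → {y | ∃ ζ, ∃ _ : ζ < ξ, ζ < η ∧ x ζ = y} = x '' Iio η := by
    intro ξ η hη
    ext y
    constructor
    · rintro ⟨ζ, -, h1, rfl⟩
      exact ⟨ζ, h1, rfl⟩
    · rintro ⟨ζ, h1, rfl⟩
      exact ⟨ζ, lt_of_lt_of_le h1 hη, h1, rfl⟩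
  have key : ∀ ξ, x ξ ∈ A ∧ ∀ η ≤ ξ, x ξ ∈ v (x '' Iio η) := by
    intro ξ
    induction ξ using WellFoundedLT.induction with
    | ind ξ ih =>
      have h1 : ∀ η : Iic ξ, v (x '' Iio (η : Om)) ∈ 𝓝 p ∧ IsClosed (v (x '' Iio (η : Om))) ∧
          Disjoint (v (x '' Iio (η : Om))) (closure (x '' Iio (η : Om))) := by
        intro η
        refine hv _ ?_ ((countable_Iio_Om _).image x)
        rintro _ ⟨ζ, hζ, rfl⟩
        exact (ih ζ (lt_of_lt_of_le hζ η.2)).1
      have : Countable (Iic ξ) := by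
        rw [Set.countable_coe_iff, ← Iio_union_right]
        exact (countable_Iio_Om ξ).union (countable_singleton _)
      obtain ⟨a, haA, ha⟩ := pick hA hp (fun η : Iic ξ => v (x '' Iio (η : Om)))
        (fun η => (h1 η).1) (fun η => (h1 η).2.1)
      have h2 : ∃ a ∈ A, ∀ η ≤ ξ, a ∈ v {y | ∃ ζ, ∃ _ : ζ < ξ, ζ < η ∧ x ζ = y} := by
        refine ⟨a, haA, fun η hη => ?_⟩
        rw [hset ξ η hη]
        exact ha ⟨η, hη⟩
      have h3 : x ξ = h2.choose := by
        rw [hx]
        show (if h : ∃ a ∈ A, ∀ η ≤ ξ, a ∈ v {y | ∃ ζ, ∃ _ : ζ < ξ, ζ < η ∧ x ζ = y} then h.choose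
          else p) = _
        rw [dif_pos h2]
      obtain ⟨h4, h5⟩ := h2.choose_spec
      rw [h3]
      refine ⟨h4, fun η hη => ?_⟩
      have := h5 η hη
      rwa [hset ξ η hη] at this
  have hdis : ∀ η, IsClosed (v (x '' Iio η)) ∧ Disjoint (v (x '' Iio η)) (closure (x '' Iio η)) := by
    intro η
    refine (hv _ ?_ ((countable_Iio_Om _).image x)).2
    rintro _ ⟨ζ, hζ, rfl⟩
    exact (key ζ).1
  have hlt : ∀ η ξ, η < ξ → x η ≠ x ξ := by
    intro η ξ h1 h2
    have h3 := (key ξ).2 ξ le_rfl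
    exact disjoint_left.1 (hdis ξ).2 h3 (subset_closure ⟨η, h1, h2⟩)
  refine ⟨x, ?_, ?_⟩
  · intro a b hab
    rcases lt_trichotomy a b with h | h | h
    · exact absurd hab (hlt a b h)
    · exact h
    · exact absurd hab.symm (hlt b a h)
  · intro ξ
    obtain ⟨Z, hZc, hZ1, hZ2⟩ : ∃ Z : Set Y, IsClosed Z ∧ x ξ ∉ Z ∧ ∀ η, ξ < η → x η ∈ Z := by
      by_cases h : ∃ η, ξ < η
      · have hne : {η | ξ < η}.Nonempty := h
        set s := (wellFounded_lt (α := Om)).min {η | ξ < η} hne with hs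
        have h1 : ξ < s := (wellFounded_lt (α := Om)).min_mem {η | ξ < η} hne
        refine ⟨v (x '' Iio s), (hdis s).1, ?_, ?_⟩
        · intro h2
          exact disjoint_left.1 (hdis s).2 h2 (subset_closure ⟨ξ, h1, rfl⟩)
        · intro η hη
          refine (key η).2 s ?_
          exact not_lt.1 ((wellFounded_lt (α := Om)).not_lt_min {η | ξ < η} hη)
      · push Not at h
        exact ⟨∅, isClosed_empty, notMem_empty _, fun η hη => absurd hη (not_lt.2 (h η))⟩
    refine ⟨(closure (x '' Iio ξ) ∪ Z)ᶜ, (isClosed_closure.union hZc).isOpen_compl, ?_, ?_⟩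
    · rintro (h | h)
      · exact disjoint_left.1 (hdis ξ).2 ((key ξ).2 ξ le_rfl) h
      · exact hZ1 h
    · intro y hy hyU
      have h1 : closure (range x) ⊆ closure (x '' Iio ξ) ∪ {x ξ} ∪ Z := by
        apply closure_minimal
        · rintro _ ⟨η, rfl⟩
          rcases lt_trichotomy η ξ with h | h | h
          · exact Or.inl (Or.inl (subset_closure ⟨η, h, rfl⟩))
          · exact Or.inl (Or.inr (by rw [h]; rfl))
          · exact Or.inr (hZ2 η h)
        · exact (isClosed_closure.union isClosed_singleton).union hZc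
      rcases h1 hy with (h | h) | h
      · exact absurd (Or.inl h) hyU
      · exact h
      · exact absurd (Or.inr h) hyU

/-- closed separable subspaces of compact t-extendial spaces have countable tightness -/
theorem OT_of_extendial {X : Type*} [TopologicalSpace X] [CompactSpace X] [T2Space X]
    (hX : TExtendial X) (B : Set X) (hB : IsClosed B)
    (hQ : ∃ Q : Set X, Q.Countable ∧ Q ⊆ B ∧ B ⊆ closure Q) : OT B := by
  classical
  obtain ⟨Q, hQc, -, hQB⟩ := hQ
  have : CompactSpace B := isCompact_iff_compactSpace.1 hB.isCompact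
  intro A hA
  rw [← closure_subset_iff_isClosed]
  intro p hp
  by_contra hpA
  obtain ⟨x, hinj, hiso⟩ := free_sequence hA hp hpA
  set G : Set X := (↑) '' closure (range x) with hG
  have hGc : IsClosed G := (isClosed_closure.isCompact.image continuous_subtype_val).isClosed
  obtain ⟨φ, hφ, hφe⟩ := hX G hGc
  let g : Om → G := fun ξ => ⟨x ξ, x ξ, subset_closure ⟨ξ, rfl⟩, rfl⟩
  have hgi : Function.Injective g := by
    intro a b hab
    exact hinj (Subtype.ext (congrArg (fun z : G => (z : X)) hab))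
  have hopen : ∀ ξ, IsOpen ({g ξ} : Set G) := by
    intro ξ
    obtain ⟨U, hU, hxU, hUy⟩ := hiso ξ
    obtain ⟨U', hU', rfl⟩ := isOpen_induced_iff.1 hU
    have : ({g ξ} : Set G) = (↑) ⁻¹' U' := by
      ext z
      constructor
      · intro hz
        rw [mem_singleton_iff.1 hz]
        exact hxU
      · intro hz
        obtain ⟨y, hy, hyz⟩ := z.2
        have h1 : y = x ξ := hUy y hy (by
          show (y : X) ∈ U'
          rw [hyz]
          exact hz)
        apply mem_singleton_iff.2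
        apply Subtype.ext
        rw [← hyz, h1]
    rw [this]
    exact hU'.preimage continuous_subtype_val
  have hcont : ∀ ξ, Continuous (({g ξ} : Set G).piecewise (fun _ => (1 : ℝ)) fun _ => 0) := by
    intro ξ
    apply Continuous.piecewise _ continuous_const continuous_const
    intro a ha
    rw [IsClopen.frontier_eq ⟨isClosed_singleton, hopen ξ⟩] at ha
    exact absurd ha (notMem_empty _)
  let e : Om → Cp G := fun ξ => ⟨_, hcont ξ⟩
  let z0 : Cp G := ⟨fun _ => 0, continuous_const⟩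
  have he1 : ∀ ξ, (e ξ).1 (g ξ) = 1 := fun ξ =>
    Set.piecewise_eq_of_mem ({g ξ} : Set G) (fun _ => (1 : ℝ)) (fun _ => 0) (mem_singleton _)
  have he0 : ∀ ξ y, y ≠ g ξ → (e ξ).1 y = 0 := fun ξ y hy =>
    Set.piecewise_eq_of_notMem ({g ξ} : Set G) (fun _ => (1 : ℝ)) (fun _ => 0)
      (fun h => hy (mem_singleton_iff.1 h))
  have hq : ∀ ξ, ∃ q : Q, 1 / 2 < |(φ (e ξ)).1 q - (φ z0).1 q| := by
    intro ξ
    have h1 : IsOpen {z : X | 1 / 2 < |(φ (e ξ)).1 z - (φ z0).1 z|} :=
      isOpen_lt continuous_const (((φ (e ξ)).2.sub (φ z0).2).abs)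
    have h2 : (x ξ : X) ∈ {z : X | 1 / 2 < |(φ (e ξ)).1 z - (φ z0).1 z|} := by
      have h3 := hφe (e ξ) (g ξ)
      have h4 := hφe z0 (g ξ)
      rw [he1] at h3
      show 1 / 2 < |(φ (e ξ)).1 (g ξ) - (φ z0).1 (g ξ)|
      rw [h3, h4]
      show 1 / 2 < |(1 : ℝ) - 0|
      norm_num
    obtain ⟨q, hq1, hq2⟩ := mem_closure_iff.1 (hQB (x ξ).2) _ h1 h2
    exact ⟨⟨q, hq2⟩, hq1⟩
  choose q hq using hq
  have : Countable Q := hQc.to_subtype
  have hU : ¬ (univ : Set Om).Countable := Set.not_countable_univ_iff.2 inferInstance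
  obtain ⟨r, hr⟩ := uncountable_fiber q univ hU
  have hc : Continuous fun f : Cp G => (φ f).1 (r : X) :=
    (continuous_apply (r : X)).comp (continuous_subtype_val.comp hφ)
  obtain ⟨T, δ, hδ, hT⟩ := cp_nhds hc z0 (by norm_num : (0 : ℝ) < 1 / 2)
  have hfin : (g ⁻¹' (T : Set G)).Countable := (T.finite_toSet.preimage hgi.injOn).countable
  obtain ⟨ξ, hξ1, hξ2⟩ : ∃ ξ ∈ {i ∈ (univ : Set Om) | q i = r}, ξ ∉ g ⁻¹' (T : Set G) := by
    by_contra hcon
    push Not at hcon
    exact hr (hfin.mono hcon)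
  have h1 := hT (e ξ) (by
    intro y hy
    have h2 : y ≠ g ξ := by
      rintro rfl
      exact hξ2 hy
    rw [he0 ξ y h2]
    show |(0 : ℝ) - 0| < δ
    simpa using hδ)
  have h2 := hq ξ
  rw [hξ1.2] at h2
  exact absurd h1 (not_lt.2 h2.le)

/-- a t-extral space is compact and t-embedded in a cube -/
theorem extral_cube {X : Type u} [TopologicalSpace X] [T35Space X] (h : TExtral X) :
    CompactSpace X ∧ ∃ (κ : Type u) (e : X → κ → unitInterval) (ψ : Cp X → Cp (κ → unitInterval)),
      Continuous e ∧ Continuous ψ ∧ ∀ f x, (ψ f).1 (e x) = f.1 x := by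
  obtain ⟨ψ, hψ, hψe⟩ := extral_embedding h (stoneCechUnit : X → StoneCech X)
    isEmbedding_stoneCechUnit
  have hX : CompactSpace X := compact_of_extender _ isEmbedding_stoneCechUnit ψ hψ hψe
  refine ⟨hX, C(X, unitInterval), fun x f => f x, ?_⟩
  have hc : Continuous (fun (x : X) (f : C(X, unitInterval)) => f x) :=
    continuous_pi fun f => f.continuous
  have hi : Function.Injective (fun (x : X) (f : C(X, unitInterval)) => f x) := by
    intro x y hxy
    by_contra hne
    obtain ⟨f, hf, hf0, hf1⟩ := CompletelyRegularSpace.completely_regular x {y} isClosed_singleton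
      (by simpa using hne)
    have h1 := congrFun hxy ⟨f, hf⟩
    simp only [ContinuousMap.coe_mk] at h1
    rw [hf0, hf1 rfl] at h1
    exact zero_ne_one h1
  obtain ⟨ψ', hψ', hψe'⟩ := extral_embedding h (fun (x : X) (f : C(X, unitInterval)) => f x)
    (hc.isClosedEmbedding hi).isEmbedding
  exact ⟨ψ', hc, hψ', hψe'⟩

/-- every t-extral space whose closed separable subspaces have countable tightness is metrizable -/
theorem metrizable_of_extral {X : Type u} [TopologicalSpace X] [T35Space X] (h : TExtral X)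
    (hT : CompactSpace X → ∀ B : Set X, IsClosed B →
      (∃ Q : Set X, Q.Countable ∧ Q ⊆ B ∧ B ⊆ closure Q) → OT B) :
    TopologicalSpace.MetrizableSpace X := by
  obtain ⟨hX, κ, e, ψ, he, hψ, hψe⟩ := extral_cube h
  exact metrizable_of_cube (hT hX) e he ψ hψ hψe

end Pool.Agent.H69R3
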