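import Mathlib
import Pool.Agent.H69R3.Core2
import Pool.Agent.H69R3.Extendial

set_option autoImplicit false

open Set Topology Filter

universe u v

namespace Pool.Agent.H69R3

open Pool.Agent.Helper126 (delta_system uncountable_fiber)

/-- Let `X` be compact and t-embedded in a cube. If `X` contains no uncountable Cantor cube, then
`X` is metrizable. -/
theorem metrizable_of_cube2 {X : Type u} [TopologicalSpace X] [CompactSpace X] [T2Space X]
    (hN : ∀ (S : Type v) [Uncountable S] (g : (S → Bool) → X), Continuous g →
      ¬ Function.Injective g)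
    {κ : Type v} (e : X → κ → unitInterval) (he : Continuous e)
    (ψ : Cp X → Cp (κ → unitInterval)) (hψ : Continuous ψ)
    (hψe : ∀ f x, (ψ f).1 (e x) = f.1 x) : TopologicalSpace.MetrizableSpace X := by
  classical
  obtain ⟨b, hb, hbs⟩ := exists_nat_bool_continuous_surjective_of_compact unitInterval
  choose σ hσ using hbs
  let q : (κ × ℕ → Bool) → (κ → unitInterval) := fun d k => b fun n => d (k, n)
  have hq : Continuous q := by
    refine continuous_pi fun k => hb.comp ?_
    exact continuous_pi fun n => continuous_apply _
  let Ψ : (κ × ℕ → Bool) → Cp X → ℝ := fun d f => (ψ f).1 (q d)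
  have hΨ1 : ∀ f, Continuous fun d => Ψ d f := fun f => (ψ f).2.comp hq
  have hΨ2 : ∀ d, Continuous (Ψ d) := fun d =>
    (continuous_apply (q d)).comp (continuous_subtype_val.comp hψ)
  set S : Set (κ × ℕ) := {β | ∃ f d, Ψ d f ≠ Ψ (fl β d) f} with hS
  by_cases hc : S.Countable
  · -- countably many coordinates are enough
    have h1 : ∀ f d d', (∀ β ∈ S, d β = d' β) → Ψ d f = Ψ d' f := by
      intro f d d' hdd
      have h2 : ∀ G : Finset (κ × ℕ), ∀ d1 : κ × ℕ → Bool, (∀ β ∈ S, d1 β = d' β) →
          Ψ (G.piecewise d' d1) f = Ψ d1 f := by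
        intro G
        induction G using Finset.induction_on with
        | empty => intro d1 _; rw [Finset.piecewise_empty]
        | insert a G ha ih =>
          intro d1 hd1
          rw [Finset.piecewise_insert]
          have h3 : ∀ d2 : κ × ℕ → Bool, (∀ β ∈ S, d2 β = d' β) →
              Ψ (Function.update d2 a (d' a)) f = Ψ d2 f := by
            intro d2 hd2
            by_cases h4 : d2 a = d' a
            · rw [← h4, Function.update_eq_self]
            · have h5 : a ∉ S := fun h => h4 (hd2 a h)
              have h6 : Function.update d2 a (d' a) = fl a d2 := by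
                apply update_eq_fl
                revert h4
                cases d2 a <;> cases d' a <;> simp
              rw [h6]
              by_contra h7
              exact h5 ⟨f, d2, fun h => h7 h.symm⟩
          rw [h3, ih d1 hd1]
          intro β hβ
          by_cases hβG : β ∈ G
          · rw [Finset.piecewise_eq_of_mem _ _ _ hβG]
          · rw [Finset.piecewise_eq_of_notMem _ _ _ hβG, hd1 β hβ]
      have h3 : d' ∈ closure {z | Ψ z f = Ψ d f} := by
        rw [mem_closure_iff]
        intro U hU hd'
        obtain ⟨G, hG⟩ := exists_cyl hU hd'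
        refine ⟨G.piecewise d' d, hG _ fun j hj => Finset.piecewise_eq_of_mem _ _ _ hj, ?_⟩
        exact h2 G d hdd
      have h4 : IsClosed {z | Ψ z f = Ψ d f} := isClosed_eq (hΨ1 f) continuous_const
      rw [h4.closure_eq] at h3
      exact h3.symm
    let T : Set κ := Prod.fst '' S
    have hTc : T.Countable := hc.image _
    have : Countable T := hTc.to_subtype
    let r : X → (T → unitInterval) := fun x t => e x t
    have hr : Continuous r := continuous_pi fun t => (continuous_apply (t : κ)).comp he
    have hri : Function.Injective r := by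
      intro x x' hxx
      by_contra hne
      obtain ⟨f, hf⟩ := interp {x, x'} fun y => if y = x then 0 else 1
      have h5 : f.1 x = 0 := by rw [hf x (by simp), if_pos rfl]
      have h6 : f.1 x' = 1 := by rw [hf x' (by simp), if_neg (Ne.symm hne)]
      let dd : X → κ × ℕ → Bool := fun x p => σ (e x p.1) p.2
      have h7 : ∀ x, q (dd x) = e x := by
        intro x
        funext k
        exact hσ (e x k)
      have h8 : Ψ (dd x) f = Ψ (dd x') f := by
        apply h1
        intro β hβ
        have h9 : e x β.1 = e x' β.1 := congrFun hxx ⟨β.1, ⟨β, hβ, rfl⟩⟩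
        show σ (e x β.1) β.2 = σ (e x' β.1) β.2
        rw [h9]
      have h10 : ∀ x, Ψ (dd x) f = f.1 x := by
        intro x
        show (ψ f).1 (q (dd x)) = f.1 x
        rw [h7, hψe]
      rw [h10, h10, h5, h6] at h8
      exact zero_ne_one h8
    exact (hr.isClosedEmbedding hri).isEmbedding.metrizableSpace
  · exfalso
    have h1 : ∀ β ∈ S, ∃ (pq : ℚ × ℚ) (G : Finset (κ × ℕ)) (s : κ × ℕ → Bool) (f : Cp X),
        (∀ d : κ × ℕ → Bool, (∀ j ∈ G, j ≠ β → d j = s j) → d β = false →
          (pq.1 : ℝ) * Ψ d f + pq.2 ≤ 0) ∧
        (∀ d : κ × ℕ → Bool, (∀ j ∈ G, j ≠ β → d j = s j) → d β = true →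
          1 ≤ (pq.1 : ℝ) * Ψ d f + pq.2) := by
      rintro β ⟨f, d0, hd0⟩
      set u := Ψ (Function.update d0 β false) f with hu
      set v := Ψ (Function.update d0 β true) f with hv
      have huv : u ≠ v := by
        cases h2 : d0 β with
        | false =>
          have h3 : Function.update d0 β false = d0 := by rw [← h2, Function.update_eq_self]
          have h4 : Function.update d0 β true = fl β d0 := by
            apply update_eq_fl; rw [h2]; rfl
          rw [hu, hv, h3, h4]
          exact hd0
        | true =>
          have h3 : Function.update d0 β true = d0 := by rw [← h2, Function.update_eq_self]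
          have h4 : Function.update d0 β false = fl β d0 := by
            apply update_eq_fl; rw [h2]; rfl
          rw [hu, hv, h3, h4]
          exact hd0.symm
      obtain ⟨p, hp⟩ : ∃ p : ℚ, 1 < (p : ℝ) * (v - u) := by
        rcases lt_or_gt_of_ne huv with h2 | h2
        · obtain ⟨p, hp⟩ := exists_rat_gt (1 / (v - u))
          refine ⟨p, ?_⟩
          rwa [div_lt_iff₀ (sub_pos.2 h2)] at hp
        · obtain ⟨p, hp⟩ := exists_rat_lt (1 / (v - u))
          refine ⟨p, ?_⟩
          rwa [lt_div_iff_of_neg (sub_neg.2 h2)] at hp
      obtain ⟨q', hq1, hq2⟩ := exists_rat_btwn (show 1 - (p : ℝ) * v < -((p : ℝ) * u) by linarith)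
      have hc1 : Continuous fun d => (p : ℝ) * Ψ d f + q' :=
        ((continuous_const.mul (hΨ1 f)).add continuous_const)
      obtain ⟨G1, hG1⟩ := exists_cyl (isOpen_lt hc1 continuous_const)
        (show Function.update d0 β false ∈ {d | (p : ℝ) * Ψ d f + q' < 0} by
          show (p : ℝ) * u + q' < 0
          linarith)
      obtain ⟨G2, hG2⟩ := exists_cyl (isOpen_lt continuous_const hc1)
        (show Function.update d0 β true ∈ {d | 1 < (p : ℝ) * Ψ d f + q'} by
          show 1 < (p : ℝ) * v + q'
          linarith)
      refine ⟨(p, q'), G1 ∪ G2, d0, f, ?_, ?_⟩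
      · intro d hd hdβ
        refine le_of_lt (hG1 d fun j hj => ?_)
        by_cases hjβ : j = β
        · subst hjβ; rw [hdβ, Function.update_self]
        · rw [Function.update_of_ne hjβ, hd j (Finset.mem_union_left _ hj) hjβ]
      · intro d hd hdβ
        refine le_of_lt (hG2 d fun j hj => ?_)
        by_cases hjβ : j = β
        · subst hjβ; rw [hdβ, Function.update_self]
        · rw [Function.update_of_ne hjβ, hd j (Finset.mem_union_right _ hj) hjβ]
    have : Nonempty (Cp X) := ⟨⟨fun _ => 0, continuous_const⟩⟩
    choose! pq G s f hneg hpos using h1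
    obtain ⟨c, hcf⟩ := uncountable_fiber pq S hc
    obtain ⟨S', hS'S, hS', t, ht⟩ := amalg _ hcf G s
    have : Uncountable S' := by
      rw [← not_countable_iff]
      exact fun h => hS' (Set.countable_coe_iff.1 h)
    refine core2 hN (J := S') (fun e' f' => (c.1 : ℝ) * Ψ (ext S' t e') f' + c.2) ?_ ?_
      (fun β => f β) ?_ ?_
    · intro f'
      exact (continuous_const.mul ((hΨ1 f').comp (continuous_ext S' t))).add continuous_const
    · intro e'
      exact (continuous_const.mul (hΨ2 _)).add continuous_const
    · intro d β hd
      have h2 := hneg β (hS'S β.2).1 (ext S' t d) (by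
        intro j hj hjβ
        obtain ⟨h4, h5⟩ := ht β β.2 j hj hjβ
        rw [ext_not_mem h4, h5]) (by rw [ext_mem β.2]; exact hd)
      rw [(hS'S β.2).2] at h2
      exact h2
    · intro d β hd
      have h2 := hpos β (hS'S β.2).1 (ext S' t d) (by
        intro j hj hjβ
        obtain ⟨h4, h5⟩ := ht β β.2 j hj hjβ
        rw [ext_not_mem h4, h5]) (by rw [ext_mem β.2]; exact hd)
      rw [(hS'S β.2).2] at h2
      exact h2

end Pool.Agent.H69R3
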